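import Pool.Agent.Lib.MP_a325a5_ag.Count

/-! Affine spaces cut out by one linear equation on each set of `d + 1` coordinates, and the
counting theorem for translates. -/

namespace Pool.Agent.Lib.MP_a325a5_ag

open MvPolynomial

/-- An affine space on which each family of `d + 1` coordinates is dependent is parametrised by at
most `d` of the coordinates. -/
theorem exists_coords_affine {n d : ℕ} (μ : {S : Finset (Fin n) // S.card = d + 1} → (Fin n → ℚ))
    (hμ : ∀ S, μ S ≠ 0) (hsupp : ∀ S : {S : Finset (Fin n) // S.card = d + 1}, ∀ t ∉ S.1, μ S t = 0)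
    (κ : {S : Finset (Fin n) // S.card = d + 1} → ℚ) :
    ∃ (J : Finset (Fin n)) (M : Fin n → Fin n → ℚ) (b : Fin n → ℚ), J.card ≤ d ∧
      ∀ z : Fin n → ℚ, (∀ S, ∑ t, μ S t * z t = κ S) → ∀ t, z t = b t + ∑ a ∈ J, M t a * z a := by
  classical
  by_cases hne : ∃ z0 : Fin n → ℚ, ∀ S, ∑ t, μ S t * z0 t = κ S
  swap
  · refine ⟨∅, fun _ _ => 0, fun _ => 0, by simp, fun z hz => (hne ⟨z, hz⟩).elim⟩
  obtain ⟨z0, hz0⟩ := hne
  let L : Submodule ℚ (Fin n → ℚ) :=
    { carrier := {z | ∀ S, ∑ t, μ S t * z t = 0}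
      add_mem' := by
        intro a b ha hb S
        have := ha S
        have := hb S
        simp only [Pi.add_apply, mul_add, Finset.sum_add_distrib]
        simp_all
      zero_mem' := by intro S; simp
      smul_mem' := by
        intro c a ha S
        have h1 := ha S
        have : ∑ t, μ S t * (c • a) t = c * ∑ t, μ S t * a t := by
          rw [Finset.mul_sum]
          refine Finset.sum_congr rfl fun t _ => ?_
          simp only [Pi.smul_apply, smul_eq_mul]
          ring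
        rw [this, h1, mul_zero] }
  let w : Fin n → Module.Dual ℚ L := fun t => (LinearMap.proj t).comp L.subtype
  obtain ⟨s, hli, hs⟩ := exists_maximal_linearIndepOn ℚ w
  let J : Finset (Fin n) := s.toFinset
  have hJs : (J : Set (Fin n)) = s := by simp [J]
  have hmem : ∀ t, w t ∈ Submodule.span ℚ (w '' (J : Set (Fin n))) := by
    intro t
    rw [hJs]
    by_cases ht : t ∈ s
    · exact Submodule.subset_span ⟨t, ht, rfl⟩
    · obtain ⟨a, ha, ha'⟩ := hs t ht
      have := Submodule.smul_mem _ a⁻¹ ha'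
      rwa [smul_smul, inv_mul_cancel₀ ha, one_smul] at this
  have hcoef : ∀ t, ∃ c : Fin n → ℚ, w t = ∑ a ∈ J, c a • w a := by
    intro t
    obtain ⟨c, hc⟩ := (Submodule.mem_span_image_finset_iff_exists_fun ℚ).mp (hmem t)
    refine ⟨fun a => if h : a ∈ J then c ⟨a, h⟩ else 0, ?_⟩
    rw [← hc, ← Finset.sum_coe_sort J]
    refine Finset.sum_congr rfl fun a _ => ?_
    simp
  choose c hc using hcoef
  refine ⟨J, c, fun t => z0 t - ∑ a ∈ J, c t a * z0 a, ?_, ?_⟩
  · by_contra hcard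
    push Not at hcard
    obtain ⟨S, hSJ, hS⟩ := Finset.exists_subset_card_eq (Nat.succ_le_of_lt hcard)
    have hrel : ∑ t ∈ S, μ ⟨S, hS⟩ t • w t = 0 := by
      ext z
      have h1 := z.2 ⟨S, hS⟩
      simp only [LinearMap.coe_sum, Finset.sum_apply, LinearMap.smul_apply, smul_eq_mul,
        LinearMap.zero_apply]
      have h2 : ∑ t, μ ⟨S, hS⟩ t * (z : Fin n → ℚ) t = ∑ t ∈ S, μ ⟨S, hS⟩ t * (z : Fin n → ℚ) t := by
        refine (Finset.sum_subset (Finset.subset_univ S) fun t _ ht => ?_).symm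
        rw [hsupp ⟨S, hS⟩ t ht, zero_mul]
      rw [h2] at h1
      exact h1
    have hliS : LinearIndepOn ℚ w (S : Set (Fin n)) := hli.mono (by
      intro t ht
      rw [← hJs]
      exact hSJ ht)
    have hzero := linearIndepOn_finset_iff.mp hliS (μ ⟨S, hS⟩) hrel
    apply hμ ⟨S, hS⟩
    funext t
    by_cases ht : t ∈ S
    · exact hzero t ht
    · exact hsupp ⟨S, hS⟩ t ht
  · intro z hz t
    have hzL : (fun t => z t - z0 t) ∈ L := by
      intro S
      have h1 := hz S
      have h2 := hz0 S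
      simp only [mul_sub, Finset.sum_sub_distrib, h1, h2, sub_self]
    have := DFunLike.congr_fun (hc t) ⟨_, hzL⟩
    simp only [LinearMap.coe_sum, Finset.sum_apply, LinearMap.smul_apply, smul_eq_mul] at this
    have h3 : z t - z0 t = ∑ a ∈ J, c t a * (z a - z0 a) := this
    have h4 : ∑ a ∈ J, c t a * (z a - z0 a) = ∑ a ∈ J, c t a * z a - ∑ a ∈ J, c t a * z0 a := by
      rw [← Finset.sum_sub_distrib]
      exact Finset.sum_congr rfl fun a _ => by ring
    rw [h4] at h3
    linarith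

/-- Counting theorem for translates.  For each of the `(d + 1) * (n - d - 1) + 1` valuations `j`
we are given a finite family `T` of affine spaces parametrised by at most `d` coordinates. -/
theorem exists_poly_translate {n d N : ℕ} (hd : d < n) (hN : N = (d + 1) * (n - d - 1) + 1)
    {T : Type} [Finite T]
    (J : Fin N → T → Finset (Fin n)) (hJ : ∀ j τ, (J j τ).card ≤ d)
    (M : Fin N → T → Fin n → Fin n → ℚ)
    (b : Fin N → T → Fin n → ℚ) :
    ∃ F : MvPolynomial (Fin N × Fin n) ℚ, F ≠ 0 ∧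
      ∀ W : Fin N × Fin n → ℚ,
        (∃ Λ : Fin (d + 1) → (Fin n → ℤ), LinearIndependent ℤ Λ ∧
          ∀ j, ∃ z : Fin n → ℚ, (∃ τ, ∀ t, z t = b j τ t + ∑ a ∈ J j τ, M j τ t a * z a) ∧
            ∀ k, ∑ t, (Λ k t : ℚ) * (W (j, t) + z t) = 0) →
        eval W F = 0 := by
  classical
  let Δ : Type := {I : Finset (Fin n) // I.card = n - (d + 1)} × (Fin N → T)
  let κ : Δ → Type := fun δ =>
    ({t : Fin n // t ∉ δ.1.1} × {a : Fin n // a ∈ δ.1.1}) ⊕
      ((Fin N × {a : Fin n // a ∈ δ.1.1}) ⊕ (Σ j : Fin N, {a : Fin n // a ∈ J j (δ.2 j)}))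
  let Z : (δ : Δ) → Fin N → Fin n → MvPolynomial (κ δ) ℚ := fun δ j t =>
    if h : t ∈ δ.1.1 then X (Sum.inr (Sum.inl (j, ⟨t, h⟩))) else
      ∑ a : {a : Fin n // a ∈ δ.1.1}, X (Sum.inl (⟨t, h⟩, a)) * X (Sum.inr (Sum.inl (j, a)))
  let Y : (δ : Δ) → (j : Fin N) → {a : Fin n // a ∈ J j (δ.2 j)} → MvPolynomial (κ δ) ℚ :=
    fun δ j a => X (Sum.inr (Sum.inr
      (Sigma.mk (β := fun j => {a : Fin n // a ∈ J j (δ.2 j)}) j a)))
  let g : (δ : Δ) → Fin N × Fin n → MvPolynomial (κ δ) ℚ := fun δ jt =>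
    Z δ jt.1 jt.2 - (C (b jt.1 (δ.2 jt.1) jt.2) +
      ∑ a : {a : Fin n // a ∈ J jt.1 (δ.2 jt.1)},
        C (M jt.1 (δ.2 jt.1) jt.2 a.1) * Y δ jt.1 a)
  have hrel : ∀ δ : Δ, ∃ F : MvPolynomial (Fin N × Fin n) ℚ, F ≠ 0 ∧ aeval (g δ) F = 0 := by
    intro δ
    apply exists_relation
    have h1 : Fintype.card (κ δ) = (n - (n - (d + 1))) * (n - (d + 1)) + (N * (n - (d + 1)) +
        ∑ j : Fin N, (J j (δ.2 j)).card) := by
      simp only [κ, Fintype.card_sum, Fintype.card_prod, Fintype.card_fin, Fintype.card_sigma,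
        Fintype.card_coe, δ.1.2]
      congr 2
      rw [Fintype.card_subtype_compl, Fintype.card_fin, Fintype.card_coe, δ.1.2]
    have h2 : ∑ j : Fin N, (J j (δ.2 j)).card ≤ N * d := by
      calc ∑ j : Fin N, (J j (δ.2 j)).card ≤ ∑ _j : Fin N, d :=
            Finset.sum_le_sum fun j _ => hJ j _
        _ = N * d := by simp
    rw [h1, Fintype.card_prod, Fintype.card_fin, Fintype.card_fin]
    generalize hc : ∑ j : Fin N, (J j (δ.2 j)).card = c at h2
    obtain ⟨e, he⟩ : ∃ e, n = d + 1 + e := ⟨n - (d + 1), by omega⟩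
    have h3 : n - (d + 1) = e := by omega
    have h4 : n - e = d + 1 := by omega
    have h5 : n - d - 1 = e := by omega
    have h8 : (n - (n - (d + 1))) * (n - (d + 1)) + (N * (n - (d + 1)) + c) =
        (d + 1) * e + (N * e + c) := by
      rw [h3, h4]
    rw [h8]
    have h6 : N = (d + 1) * e + 1 := by rw [hN, h5]
    have h7 : N * n = N * d + N + N * e := by rw [he]; ring
    rw [h7]
    omega
  choose F' hF'0 hF' using hrel
  have : Fintype Δ := Fintype.ofFinite Δ
  refine ⟨∏ δ, F' δ, Finset.prod_ne_zero_iff.mpr fun δ _ => hF'0 δ, ?_⟩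
  rintro W ⟨Λ, hΛ, hz⟩
  choose z hz1 hz2 using hz
  choose τ hτ using hz1
  obtain ⟨I, P, hI, hP⟩ := exists_coords Λ hΛ
  let δ : Δ := ⟨⟨I, hI⟩, τ⟩
  rw [map_prod]
  apply Finset.prod_eq_zero (Finset.mem_univ δ)
  let pt : κ δ → ℚ := Sum.elim (fun ta => P ta.2.1 ta.1.1)
    (Sum.elim (fun ja => W (ja.1, ja.2.1) + z ja.1 ja.2.1) (fun ja => z ja.1 ja.2.1))
  have hZ : ∀ j t, eval pt (Z δ j t) = W (j, t) + z j t := by
    intro j t
    by_cases h : t ∈ I
    · simp [Z, h, pt, δ]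
    · have h1 := hP (fun t => W (j, t) + z j t) (hz2 j) t h
      have h2 : eval pt (Z δ j t) = ∑ a : {a : Fin n // a ∈ I}, P a.1 t * (W (j, a.1) + z j a.1) := by
        simp only [Z, δ, h, dif_neg, not_false_iff, map_sum, map_mul, eval_X, pt, Sum.elim_inl,
          Sum.elim_inr]
      rw [h2, h1, ← Finset.sum_coe_sort I]
  have hg : ∀ jt : Fin N × Fin n, eval pt (g δ jt) = W jt := by
    rintro ⟨j, t⟩
    have h1 := hτ j t
    rw [← Finset.sum_coe_sort (J j (τ j))] at h1
    have h2 : ∀ a, eval pt (Y δ j a) = z j a.1 := by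
      intro a
      simp [Y, pt, δ]
    simp only [g, map_sub, map_add, map_sum, map_mul, eval_C, h2, hZ]
    show W (j, t) + z j t - (b j (τ j) t + ∑ a : {a : Fin n // a ∈ J j (τ j)}, M j (τ j) t a.1 *
        z j a.1) = W (j, t)
    linarith
  have h1 : eval W (F' δ) = eval (fun jt => eval pt (g δ jt)) (F' δ) := by
    congr 2
    funext jt
    exact (hg jt).symm
  rw [h1, ← eval_aeval_eq, hF' δ, map_zero]

end Pool.Agent.Lib.MP_a325a5_ag
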