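import Mathlib

/-! Algebraic dependence by counting variables, and coordinates on rational subspaces. -/

namespace Pool.Agent.Lib.MP_a325a5_ag

open MvPolynomial

/-- more polynomials than variables are algebraically dependent -/
theorem exists_relation {ι κ : Type} [Fintype ι] [Fintype κ]
    (h : Fintype.card κ < Fintype.card ι) (g : ι → MvPolynomial κ ℚ) :
    ∃ F : MvPolynomial ι ℚ, F ≠ 0 ∧ aeval g F = 0 := by
  by_contra hcon
  push Not at hcon
  have hind : AlgebraicIndependent ℚ g := by
    rw [algebraicIndependent_iff]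
    intro p hp
    by_contra hne
    exact hcon p hne hp
  have h1 := hind.lift_cardinalMk_le_trdeg
  rw [MvPolynomial.trdeg_of_isDomain] at h1
  simp only [Cardinal.lift_id, Cardinal.mk_fintype, Cardinal.lift_natCast, Nat.cast_le] at h1
  omega

/-- The common zeros of `m` independent integral linear forms have dimension `n - m`, and `n - m`
of the coordinates determine all the others. -/
theorem exists_coords {n m : ℕ} (Λ : Fin m → (Fin n → ℤ)) (hΛ : LinearIndependent ℤ Λ) :
    ∃ (J : Finset (Fin n)) (M : Fin n → Fin n → ℚ), J.card = n - m ∧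
      ∀ z : Fin n → ℚ, (∀ k, ∑ t, (Λ k t : ℚ) * z t = 0) →
        ∀ t ∉ J, z t = ∑ a ∈ J, M a t * z a := by
  classical
  let A : Matrix (Fin m) (Fin n) ℚ := fun k t => (Λ k t : ℚ)
  have hA : LinearIndependent ℚ A.row := by
    rw [← LinearIndependent.iff_fractionRing ℤ ℚ]
    have hinj : Function.Injective
        (LinearMap.pi (fun t : Fin n => (Algebra.linearMap ℤ ℚ).comp (LinearMap.proj t)) :
          (Fin n → ℤ) →ₗ[ℤ] (Fin n → ℚ)) := by
      intro a b hab
      ext t
      have := congrFun hab t
      simpa using this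
    exact hΛ.map' _ (LinearMap.ker_eq_bot.mpr hinj)
  have hrank : A.rank = m := by
    have := hA.rank_matrix
    simpa using this
  let L : Submodule ℚ (Fin n → ℚ) := LinearMap.ker A.mulVecLin
  have hL : Module.finrank ℚ L = n - m := by
    have h1 := LinearMap.finrank_range_add_finrank_ker A.mulVecLin
    have h2 : Module.finrank ℚ (LinearMap.range A.mulVecLin) = m := hrank
    have h3 : Module.finrank ℚ (Fin n → ℚ) = n := by
      rw [Module.finrank_fintype_fun_eq_card, Fintype.card_fin]
    have h4 : Module.finrank ℚ L = Module.finrank ℚ (LinearMap.ker A.mulVecLin) := rfl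
    rw [h2, h3] at h1
    rw [h4]
    omega
  let w : Fin n → Module.Dual ℚ L := fun t => (LinearMap.proj t).comp L.subtype
  obtain ⟨b, -, -, hspan, hli⟩ := exists_linearIndepOn_extension
    (K := ℚ) (v := w) (s := ∅) (t := Set.univ) (linearIndepOn_empty ℚ w) (Set.empty_subset _)
  have htop : Submodule.span ℚ (w '' Set.univ) = ⊤ := by
    rw [eq_top_iff]
    intro φ _
    -- extend φ to ℚ^n
    obtain ⟨ψ, hψ⟩ := LinearMap.exists_extend (p := L) φ
    have : φ = ∑ t, ψ (Pi.single t 1) • w t := by
      ext x
      have hx : φ x = ψ (x : Fin n → ℚ) := by rw [← hψ]; rfl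
      rw [hx]
      have hx2 : (x : Fin n → ℚ) = ∑ t, (x : Fin n → ℚ) t • (Pi.single t 1 : Fin n → ℚ) := by
        ext s
        simp [Finset.sum_apply, Pi.single_apply]
      conv_lhs => rw [hx2]
      rw [map_sum]
      simp only [map_smul, LinearMap.coe_sum, Finset.sum_apply, LinearMap.smul_apply, smul_eq_mul]
      refine Finset.sum_congr rfl fun t _ => ?_
      show _ = ψ (Pi.single t 1) * (x : Fin n → ℚ) t
      ring
    rw [this]
    exact Submodule.sum_mem _ fun t _ => Submodule.smul_mem _ _
      (Submodule.subset_span ⟨t, Set.mem_univ _, rfl⟩)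
  have hspan' : Submodule.span ℚ (w '' b) = ⊤ := by
    rw [eq_top_iff, ← htop]
    exact Submodule.span_le.mpr hspan
  let J : Finset (Fin n) := b.toFinset
  have hJ : (J : Set (Fin n)) = b := by simp [J]
  -- cardinality
  have hcard : J.card = n - m := by
    have hb : Module.Basis b ℚ (Module.Dual ℚ L) := Module.Basis.mk hli (by
      rw [← hspan', Set.image_eq_range])
    have := Module.finrank_eq_card_basis hb
    rw [Subspace.dual_finrank_eq, hL] at this
    rw [this, Set.toFinset_card]
  -- coefficients
  have hcoef : ∀ t, ∃ c : Fin n → ℚ, w t = ∑ a ∈ J, c a • w a := by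
    intro t
    have : w t ∈ Submodule.span ℚ (w '' (J : Set (Fin n))) := by
      rw [hJ, hspan']; trivial
    obtain ⟨c, hc⟩ := (Submodule.mem_span_image_finset_iff_exists_fun ℚ).mp this
    refine ⟨fun a => if h : a ∈ J then c ⟨a, h⟩ else 0, ?_⟩
    rw [← hc, ← Finset.sum_coe_sort J]
    refine Finset.sum_congr rfl fun a _ => ?_
    simp
  choose c hc using hcoef
  refine ⟨J, fun a t => c t a, hcard, ?_⟩
  intro z hz t _
  have hzL : z ∈ L := by
    rw [LinearMap.mem_ker]
    ext k
    simpa [A, Matrix.mulVec, dotProduct] using hz k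
  have := DFunLike.congr_fun (hc t) ⟨z, hzL⟩
  simp only [LinearMap.coe_sum, Finset.sum_apply, LinearMap.smul_apply, smul_eq_mul] at this
  exact this

end Pool.Agent.Lib.MP_a325a5_ag
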