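import Pool.Agent.Lib.MP_a325a5_ag.AlgDep

/-! The counting theorem: the coefficient valuations of a system with an unlikely intersection
satisfy one of finitely many polynomial relations. -/

namespace Pool.Agent.Lib.MP_a325a5_ag

open MvPolynomial

/-- Evaluation after substitution. -/
theorem eval_aeval_eq {σ τ : Type} (W : σ → ℚ) (g : τ → MvPolynomial σ ℚ)
    (p : MvPolynomial τ ℚ) :
    eval W (aeval g p) = eval (fun t => eval W (g t)) p := by
  have h : (eval W).comp (aeval g : MvPolynomial τ ℚ →ₐ[ℚ] MvPolynomial σ ℚ).toRingHom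
      = eval (fun t => eval W (g t)) := by
    apply MvPolynomial.ringHom_ext
    · intro r
      simp
    · intro i
      simp
  exact DFunLike.congr_fun h p

/-- Counting theorem.  `ι i` indexes the monomials of the `i`-th equation, `e i` are their
exponents.  There is a nonzero polynomial `F` vanishing at every family `W` of valuations for which
there are `n - r + 1` independent integral forms `Λ` and, for each of the
`(r - 1) * (n - r + 1) + 1` valuations `j`, a common zero `z` of the forms and for each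
equation `i` two distinct monomials with `W a + a . z = W b + b . z`. -/
theorem exists_poly {n r : ℕ} (hr : 1 ≤ r) (hrn : r ≤ n)
    (ι : Fin r → Type) [∀ i, Fintype (ι i)] [∀ i, DecidableEq (ι i)]
    (e : ∀ i, ι i → (Fin n → ℤ)) :
    ∃ F : MvPolynomial (Fin ((r - 1) * (n - r + 1) + 1) × (Σ i, ι i)) ℚ, F ≠ 0 ∧
      ∀ W : Fin ((r - 1) * (n - r + 1) + 1) × (Σ i, ι i) → ℚ,
        (∃ Λ : Fin (n - r + 1) → (Fin n → ℤ), LinearIndependent ℤ Λ ∧
          ∀ j, ∃ z : Fin n → ℚ, (∀ k, ∑ t, (Λ k t : ℚ) * z t = 0) ∧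
            ∀ i, ∃ a b : ι i, a ≠ b ∧
              W (j, ⟨i, a⟩) + ∑ t, (e i a t : ℚ) * z t =
                W (j, ⟨i, b⟩) + ∑ t, (e i b t : ℚ) * z t) →
        eval W F = 0 := by
  classical
  set N := (r - 1) * (n - r + 1) + 1 with hN
  -- choice data
  let Δ : Type := {J : Finset (Fin n) // J.card = r - 1} ×
    ((j : Fin N) → (i : Fin r) → {pq : ι i × ι i // pq.1 ≠ pq.2})
  let κ : Finset (Fin n) → Type := fun J =>
    ({t : Fin n // t ∉ J} × {a : Fin n // a ∈ J}) ⊕ (Fin N × {a : Fin n // a ∈ J})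
  let Z : (J : Finset (Fin n)) → Fin N → Fin n → MvPolynomial (κ J) ℚ := fun J j t =>
    if h : t ∈ J then X (Sum.inr (j, ⟨t, h⟩)) else
      ∑ a : {a : Fin n // a ∈ J}, X (Sum.inl (⟨t, h⟩, a)) * X (Sum.inr (j, a))
  let g : (δ : Δ) → Fin N × Fin r → MvPolynomial (κ δ.1.1) ℚ := fun δ ji =>
    ∑ t, C ((e ji.2 (δ.2 ji.1 ji.2).1.2 t : ℚ) - (e ji.2 (δ.2 ji.1 ji.2).1.1 t : ℚ)) *
      Z δ.1.1 ji.1 t
  have hcard : ∀ δ : Δ, Fintype.card (κ δ.1.1) < Fintype.card (Fin N × Fin r) := by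
    intro δ
    have hJ := δ.1.2
    have h1 : Fintype.card {t : Fin n // t ∉ δ.1.1} = n - (r - 1) := by
      rw [Fintype.card_subtype_compl, Fintype.card_fin, Fintype.card_coe, hJ]
    have h2 : Fintype.card {a : Fin n // a ∈ δ.1.1} = r - 1 := by
      rw [Fintype.card_coe, hJ]
    simp only [κ, Fintype.card_sum, Fintype.card_prod, h1, h2, Fintype.card_fin]
    obtain ⟨s, rfl⟩ : ∃ s, r = s + 1 := ⟨r - 1, by omega⟩
    obtain ⟨m, rfl⟩ : ∃ m, n = s + 1 + m := ⟨n - (s + 1), by omega⟩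
    have e1 : s + 1 - 1 = s := by omega
    have e2 : s + 1 + m - s = m + 1 := by omega
    have e3 : s + 1 + m - (s + 1) + 1 = m + 1 := by omega
    rw [hN, e1, e2, e3]
    nlinarith
  choose F' hF'0 hF' using fun δ : Δ => exists_relation (hcard δ) (g δ)
  let sub : (δ : Δ) → Fin N × Fin r → MvPolynomial (Fin N × (Σ i, ι i)) ℚ := fun δ ji =>
    X (ji.1, ⟨ji.2, (δ.2 ji.1 ji.2).1.1⟩) - X (ji.1, ⟨ji.2, (δ.2 ji.1 ji.2).1.2⟩)
  let G : Δ → MvPolynomial (Fin N × (Σ i, ι i)) ℚ := fun δ => aeval (sub δ) (F' δ)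
  have hG : ∀ δ, G δ ≠ 0 := by
    intro δ h0
    apply hF'0 δ
    let θ : Fin N × (Σ i, ι i) → MvPolynomial (Fin N × Fin r) ℚ := fun jk =>
      if jk.2.2 = (δ.2 jk.1 jk.2.1).1.1 then X (jk.1, jk.2.1) else 0
    have h1 : aeval θ (G δ) = F' δ := by
      have h2 : (aeval θ).comp (aeval (sub δ)) = AlgHom.id ℚ (MvPolynomial (Fin N × Fin r) ℚ) := by
        apply MvPolynomial.algHom_ext
        rintro ⟨j, i⟩
        have hne := (δ.2 j i).2
        simp [sub, θ, hne.symm]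
      have := DFunLike.congr_fun h2 (F' δ)
      simpa [G] using this
    rw [← h1, h0, map_zero]
  haveI : Fintype Δ := Fintype.ofFinite Δ
  refine ⟨∏ δ, G δ, Finset.prod_ne_zero_iff.mpr fun δ _ => hG δ, ?_⟩
  rintro W ⟨Λ, hΛ, hz⟩
  choose z hz1 hz2 using hz
  choose a b hab hW using hz2
  obtain ⟨J, M, hJ, hM⟩ := exists_coords Λ hΛ
  have hJ' : J.card = r - 1 := by omega
  let δ : Δ := ⟨⟨J, hJ'⟩, fun j i => ⟨(a j i, b j i), hab j i⟩⟩
  rw [map_prod]
  apply Finset.prod_eq_zero (Finset.mem_univ δ)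
  let pt : κ J → ℚ := Sum.elim (fun ta => M ta.2.1 ta.1.1) (fun ja => z ja.1 ja.2.1)
  have hZ : ∀ j t, eval pt (Z J j t) = z j t := by
    intro j t
    by_cases h : t ∈ J
    · simp [Z, h, pt]
    · simp only [Z, h, dif_neg, not_false_iff, map_sum, map_mul, eval_X, pt, Sum.elim_inl,
        Sum.elim_inr]
      rw [hM (z j) (hz1 j) t h, ← Finset.sum_coe_sort J]
      
  have hgh : ∀ ji : Fin N × Fin r, eval pt (g δ ji) =
      W (ji.1, ⟨ji.2, a ji.1 ji.2⟩) - W (ji.1, ⟨ji.2, b ji.1 ji.2⟩) := by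
    rintro ⟨j, i⟩
    have h1 := hW j i
    simp only [g, map_sum, map_mul, eval_C]
    have h2 : ∀ t, eval pt (Z δ.1.1 j t) = z j t := hZ j
    simp only [h2]
    show ∑ t, ((e i (b j i) t : ℚ) - (e i (a j i) t : ℚ)) * z j t = _
    simp only [sub_mul, Finset.sum_sub_distrib]
    linarith
  have h1 : eval W (G δ) = eval (fun ji => eval W (sub δ ji)) (F' δ) := by
    exact eval_aeval_eq W (sub δ) (F' δ)
  have h2 : (fun ji => eval W (sub δ ji)) = fun ji => eval pt (g δ ji) := by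
    funext ji
    rw [hgh ji]
    simp [sub, δ]
  have h3 : eval (fun ji => eval pt (g δ ji)) (F' δ) = eval pt (aeval (g δ) (F' δ)) :=
    (eval_aeval_eq pt (g δ) (F' δ)).symm
  rw [h1, h2, h3, hF' δ, map_zero]

end Pool.Agent.Lib.MP_a325a5_ag
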