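import Pool.Agent.Lib.MP_a325a5_ag.Extend
import Pool.Agent.Lib.MP_a325a5_ag.Count

/-! The locus bound: no atypical subvarieties. -/

namespace Pool.Agent.Lib.MP_a325a5_ag

open MvPolynomial WithZero

/-- Some positive power of `w` is (the image in `E` of) an element `u` of `K` that is a unit for
all the valuations `v j`.  All roots of unity have this property (`u = 1`). -/
def RadicalUnit {K E : Type*} [Field K] [Field E] [Algebra K E] {N : ℕ}
    (v : Fin N → Valuation K ℤᵐ⁰) (w : Eˣ) : Prop :=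
  ∃ (m : ℕ) (u : K), 0 < m ∧ (∀ j, v j u = 1) ∧ (w : E) ^ m = algebraMap K E u

/-- Let `K ⊆ Ω ⊆ E` be fields, let `y` be a point of the torus with coordinates in `E` and let `Z`
be the locus of `y` over `Ω` (the closed irreducible subvariety of the torus over `Ω` with generic
point `y`).  The definition says that `dim Z + codim H ≤ m` for every subtorus translate `H`
containing `Z` that is defined by equations `x ^ λ = w` with `w` a `RadicalUnit`, in particular
for every torsion coset `H`: if the coordinates `y t`, `t ∈ S`, are algebraically independent over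
`Ω` and the monomials `y ^ (Λ i)`, `i < h`, are radical units for linearly independent exponent
vectors `Λ i`, then `S.card + h ≤ m`. -/
def LocusBound {n N : ℕ} {K : Type*} (Ω : Type*) {E : Type*} [Field K] [Field Ω] [Field E]
    [Algebra Ω E] [Algebra K E] (v : Fin N → Valuation K ℤᵐ⁰) (m : ℕ) (y : Fin n → Eˣ) : Prop :=
  ∀ (S : Finset (Fin n)) (h : ℕ) (Λ : Fin h → (Fin n → ℤ)),
    AlgebraicIndependent Ω (fun t : {t // t ∈ S} => ((y t : Eˣ) : E)) →
    LinearIndependent ℤ Λ → (∀ i, RadicalUnit v (∏ t, y t ^ (Λ i t))) → S.card + h ≤ m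

theorem RadicalUnit.zero {K E : Type*} [Field K] [Field E] [Algebra K E] {N : ℕ}
    {v : Fin N → Valuation K ℤᵐ⁰} {w : Eˣ} (hw : RadicalUnit v w) (j : Fin N)
    (z : Additive Eˣ →+ ℚ)
    (hz : ∀ (c : Kˣ) (w : Eˣ), (w : E) = algebraMap K E c →
      z (Additive.ofMul w) = ((log (v j (c : K)) : ℤ) : ℚ)) :
    z (Additive.ofMul w) = 0 := by
  obtain ⟨m, u, hm, hu, hw⟩ := hw
  have hu0 : u ≠ 0 := by
    rintro rfl
    rw [map_zero] at hw
    exact (w ^ m).ne_zero (by rw [Units.val_pow_eq_pow_val]; exact hw)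
  have h1 := hz (Units.mk0 u hu0) (w ^ m) (by rw [Units.val_pow_eq_pow_val]; exact hw)
  rw [ofMul_pow, map_nsmul, nsmul_eq_mul, Units.val_mk0, hu j, log_one, Int.cast_zero] at h1
  exact (mul_eq_zero.mp h1).resolve_left (by exact_mod_cast hm.ne')

theorem RadicalUnit.base {K Ω E : Type*} [Field K] [Field Ω] [Field E] [Algebra K Ω]
    [Algebra Ω E] [Algebra K E] [IsScalarTower K Ω E] {N : ℕ}
    {v : Fin N → Valuation K ℤᵐ⁰} {w : Eˣ} (hw : RadicalUnit v w) :
    ∃ (m : ℕ) (u : Ωˣ), 0 < m ∧ w ^ m = Units.map (algebraMap Ω E : Ω →* E) u := by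
  obtain ⟨m, u, hm, hu, hw⟩ := hw
  have hu0 : algebraMap K Ω u ≠ 0 := by
    intro h
    rw [IsScalarTower.algebraMap_apply K Ω E, h, map_zero] at hw
    exact (w ^ m).ne_zero (by rw [Units.val_pow_eq_pow_val]; exact hw)
  refine ⟨m, Units.mk0 _ hu0, hm, ?_⟩
  ext
  rw [Units.val_pow_eq_pow_val, hw, IsScalarTower.algebraMap_apply K Ω E]
  rfl

/-- A root of unity is a radical unit. -/
theorem RadicalUnit.of_isOfFinOrder {K E : Type*} [Field K] [Field E] [Algebra K E] {N : ℕ}
    (v : Fin N → Valuation K ℤᵐ⁰) {w : Eˣ} (hw : IsOfFinOrder w) : RadicalUnit v w :=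
  ⟨orderOf w, 1, hw.orderOf_pos, fun j => map_one _, by
    rw [← Units.val_pow_eq_pow_val, pow_orderOf_eq_one, Units.val_one, map_one]⟩

end Pool.Agent.Lib.MP_a325a5_ag
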