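import Mathlib

/-! Krull dimension and algebraic relations between coordinates. -/

namespace Pool.Agent.Lib.MP_a325a5_ag

open MvPolynomial

/-- Krull dimension does not drop in integral injective extensions. -/
theorem krullDim_le_of_integral {A R : Type*} [CommRing A] [CommRing R] [IsDomain R]
    (g : A →+* R)
    (hinj : Function.Injective g) (hint : g.IsIntegral) : ringKrullDim A ≤ ringKrullDim R := by
  algebraize [g]
  have : Algebra.IsIntegral A R := ⟨hint⟩
  apply iSup_le
  intro l
  obtain ⟨P, hP⟩ : ∃ P : Ideal R, P.IsPrime ∧ P.LiesOver (RelSeries.head l).asIdeal := by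
    obtain ⟨Q, hQ, hQ'⟩ := Ideal.exists_ideal_over_prime_of_isIntegral_of_isDomain (S := R)
      (RelSeries.head l).asIdeal (by
        rw [show RingHom.ker (algebraMap A R) = ⊥ from
          (RingHom.injective_iff_ker_eq_bot _).mp hinj]
        exact bot_le)
    exact ⟨Q, hQ, ⟨hQ'.symm⟩⟩
  obtain ⟨hP1, hP2⟩ := hP
  obtain ⟨L, hL, -, -⟩ := Ideal.exists_ltSeries_of_hasGoingUp l P
  have := Order.LTSeries.length_le_krullDim L
  rw [hL] at this
  exact this

/-- Algebraically independent elements bound the Krull dimension from below. -/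
theorem card_le_krullDim {k R : Type*} [Field k] [CommRing R] [IsDomain R] [Algebra k R]
    [Algebra.FiniteType k R] {ι : Type} [Fintype ι] (y : ι → R) (hy : AlgebraicIndependent k y) :
    (Fintype.card ι : WithBot ℕ∞) ≤ ringKrullDim R := by
  obtain ⟨s, g, hinj, hint⟩ := exists_integral_inj_algHom_of_fg k R
  have h1 : ringKrullDim (MvPolynomial (Fin s) k) = s := by
    simp
  have h2 : (s : WithBot ℕ∞) ≤ ringKrullDim R := by
    rw [← h1]
    exact krullDim_le_of_integral g.toRingHom hinj hint
  refine le_trans ?_ h2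
  have h3 : Algebra.adjoin k (Set.range fun i => g (X i)) = g.range := by
    have : (Set.range fun i => g (X i)) = g '' (Set.range X) := by
      rw [← Set.range_comp]; rfl
    rw [this, ← AlgHom.map_adjoin, MvPolynomial.adjoin_range_X, Algebra.map_top]
  have h4 : Algebra.IsAlgebraic (Algebra.adjoin k (Set.range fun i => g (X i))) R := by
    rw [h3]
    refine ⟨fun r => ?_⟩
    have h5 : IsIntegral g.range r := by
      obtain ⟨q, hq, hq'⟩ := hint r
      refine ⟨q.map g.rangeRestrict.toRingHom, hq.map _, ?_⟩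
      rw [Polynomial.eval₂_map]
      exact hq'
    exact h5.isAlgebraic
  have h6 := Algebra.IsAlgebraic.trdeg_le_cardinalMk (R := k) (A := R)
    (s := Set.range fun i => g (X i))
  have h7 := hy.lift_cardinalMk_le_trdeg
  have h8 : Cardinal.mk (Set.range fun i => g (X i)) ≤ s := by
    have := Cardinal.mk_range_le_lift (f := fun i : Fin s => g (X i))
    simpa using this
  have h9 : Cardinal.lift (Cardinal.mk ι) ≤ (Cardinal.lift (s : Cardinal)) :=
    h7.trans (Cardinal.lift_le.mpr (h6.trans h8))
  have h10 : Fintype.card ι ≤ s := by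
    simpa using h9
  exact_mod_cast h10

/-- Any `d + 1` coordinates satisfy a polynomial relation modulo an ideal of dimension `d`. -/
theorem exists_mem_of_krullDim_le {k : Type*} [Field k] {n d : ℕ}
    (I : Ideal (MvPolynomial (Fin n) k))
    (hI : ringKrullDim (MvPolynomial (Fin n) k ⧸ I) ≤ d) (S : Finset (Fin n))
    (hS : S.card = d + 1) :
    ∃ Q : MvPolynomial {t // t ∈ S} k, Q ≠ 0 ∧ rename Subtype.val Q ∈ I := by
  by_contra hcon
  push Not at hcon
  let φ : MvPolynomial {t // t ∈ S} k →ₐ[k] (MvPolynomial (Fin n) k ⧸ I) :=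
    (Ideal.Quotient.mkₐ k I).comp (rename Subtype.val)
  have hφ : ∀ Q, φ Q = 0 → Q = 0 := by
    intro Q hQ
    by_contra h
    exact hcon Q h (Ideal.Quotient.eq_zero_iff_mem.mp hQ)
  let M : Submonoid (MvPolynomial (Fin n) k ⧸ I) := (nonZeroDivisors _).map φ
  obtain ⟨P, hP, -, hPM⟩ := Ideal.exists_le_prime_disjoint (⊥ : Ideal (MvPolynomial (Fin n) k ⧸ I))
    M (by
      rw [Set.disjoint_left]
      rintro x hx ⟨Q, hQ, rfl⟩
      have h1 : φ Q = 0 := hx
      exact nonZeroDivisors.ne_zero hQ (hφ Q h1))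
  let y : {t // t ∈ S} → (MvPolynomial (Fin n) k ⧸ I) ⧸ P := fun t =>
    Ideal.Quotient.mk P (φ (X t))
  have hy : AlgebraicIndependent k y := by
    rw [algebraicIndependent_iff]
    intro Q hQ
    by_contra h
    have h2 : aeval y Q = Ideal.Quotient.mk P (φ Q) := by
      have : (aeval y : MvPolynomial {t // t ∈ S} k →ₐ[k] _) = (Ideal.Quotient.mkₐ k P).comp φ := by
        apply MvPolynomial.algHom_ext
        intro t
        simp [y]
      rw [this]
      rfl
    rw [h2] at hQ
    have h3 : φ Q ∈ P := Ideal.Quotient.eq_zero_iff_mem.mp hQ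
    exact (Set.disjoint_left.mp hPM) h3 ⟨Q, mem_nonZeroDivisors_of_ne_zero h, rfl⟩
  have h4 := card_le_krullDim y hy
  have h5 := ringKrullDim_quotient_le P
  have h6 : (Fintype.card {t // t ∈ S} : WithBot ℕ∞) ≤ d := h4.trans (h5.trans hI)
  have h7 : Fintype.card {t // t ∈ S} ≤ d := by exact_mod_cast h6
  rw [Fintype.card_coe, hS] at h7
  omega

end Pool.Agent.Lib.MP_a325a5_ag
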