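import Pool.Agent.Lib.MP_a325a5_ag.Val

/-! Extending valuations to extension fields such that given algebraically independent elements
become units. -/

namespace Pool.Agent.Lib.MP_a325a5_ag

open MvPolynomial WithZero

/-- Extension of a rational valued homomorphism on `Kˣ` vanishing on the units of a valuation ring
to the units of an extension field, with algebraically independent elements of value zero. -/
theorem exists_extend {K Ω : Type*} [Field K] [Field Ω] [Algebra K Ω] (R : ValuationSubring K)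
    (l : Additive Kˣ →+ ℚ)
    (hl : ∀ c : Kˣ, R.valuation (c : K) = 1 → l (Additive.ofMul c) = 0)
    {ι : Type} (y : ι → Ω) (hy : AlgebraicIndependent K y) :
    ∃ (A : ValuationSubring Ω) (z : Additive Ωˣ →+ ℚ),
      (∀ (c : Kˣ) (w : Ωˣ), (w : Ω) = algebraMap K Ω c →
        z (Additive.ofMul w) = l (Additive.ofMul c)) ∧
      (∀ w : Ωˣ, A.valuation (w : Ω) = 1 → z (Additive.ofMul w) = 0) ∧
      (∀ (i : ι) (w : Ωˣ), (w : Ω) = y i → z (Additive.ofMul w) = 0) := by
  classical
  let φ : MvPolynomial ι R →+* IsLocalRing.ResidueField R :=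
    eval₂Hom (IsLocalRing.residue R) (fun _ => 1)
  let P : Ideal (MvPolynomial ι R) := RingHom.ker φ
  have hP : P.IsPrime := RingHom.ker_isPrime φ
  let ψ : MvPolynomial ι R →+* Ω := eval₂Hom ((algebraMap K Ω).comp R.subtype) y
  have hψ : ∀ q, ψ q = 0 → q = 0 := by
    intro q hq
    have h1 : ψ q = aeval y (map R.subtype q) := by
      rw [aeval_def, eval₂_map]
      rfl
    rw [h1] at hq
    have h2 := (algebraicIndependent_iff.mp hy) _ hq
    exact map_injective R.subtype Subtype.val_injective (by rw [h2, map_zero])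
  let f : Localization.AtPrime P →+* Ω := IsLocalization.lift (M := P.primeCompl) (g := ψ) (by
    intro q
    refine isUnit_iff_ne_zero.mpr fun h => ?_
    have := hψ _ h
    exact q.2 (by rw [this]; exact P.zero_mem))
  have hf : ∀ q, f (algebraMap _ _ q) = ψ q := fun q => IsLocalization.lift_eq _ q
  obtain ⟨A, hA, hloc⟩ := IsLocalRing.exists_factor_valuationRing (R := Localization.AtPrime P) f
  have hunit : ∀ q : MvPolynomial ι R, A.valuation (ψ q) = 1 ↔ q ∉ P := by
    intro q
    have hval : A.valuation (ψ q) = A.valuation ((f.codRestrict A.toSubring hA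
        (algebraMap _ _ q) : A) : Ω) := by
      show A.valuation (ψ q) = A.valuation (f (algebraMap _ _ q))
      rw [hf]
    rw [hval, ← A.valuation_eq_one_iff]
    constructor
    · intro hu
      have h1 := hloc.map_nonunit _ hu
      exact (IsLocalization.AtPrime.isUnit_to_map_iff _ P q).mp h1
    · intro hq
      exact ((IsLocalization.AtPrime.isUnit_to_map_iff _ P q).mpr hq).map _
  have hC : ∀ c : R, A.valuation (algebraMap K Ω (c : K)) = 1 → R.valuation (c : K) = 1 := by
    intro c hc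
    have h1 : ψ (C c) = algebraMap K Ω (c : K) := by
      simp [ψ]
    rw [← h1, hunit] at hc
    have h2 : φ (C c) = IsLocalRing.residue R c := by
      simp [φ]
    have h3 : IsLocalRing.residue R c ≠ 0 := by
      intro h
      exact hc (by rw [← h2] at h; exact h)
    have h4 : IsUnit c := (IsLocalRing.residue_ne_zero_iff_isUnit c).mp h3
    exact (R.valuation_eq_one_iff c).mp h4
  have key : ∀ c : K, c ≠ 0 → A.valuation (algebraMap K Ω c) = 1 → R.valuation c = 1 := by
    intro c hc h1
    rcases R.mem_or_inv_mem c with hm | hm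
    · exact hC ⟨c, hm⟩ h1
    · have h2 := hC ⟨c⁻¹, hm⟩ (by
        show A.valuation (algebraMap K Ω c⁻¹) = 1
        rw [map_inv₀, map_inv₀, h1, inv_one])
      have h3 : R.valuation c⁻¹ = 1 := h2
      rw [map_inv₀] at h3
      exact inv_eq_one.mp h3
  -- the groups
  let U : AddSubgroup (Additive Ωˣ) := A.unitGroup.toAddSubgroup
  let κ : Additive Kˣ →+ Additive Ωˣ := (Units.map (algebraMap K Ω : K →* Ω)).toAdditive
  let κ' : Additive Kˣ →+ (Additive Ωˣ ⧸ U) := (QuotientAddGroup.mk' U).comp κ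
  have hker : κ'.ker ≤ l.ker := by
    intro c hc
    have h1 : κ c ∈ U := by
      have : (QuotientAddGroup.mk' U) (κ c) = 0 := hc
      exact (QuotientAddGroup.eq_zero_iff _).mp this
    have h2 : A.valuation (algebraMap K Ω ((Additive.toMul c : Kˣ) : K)) = 1 := h1
    exact hl _ (key _ (Units.ne_zero _) h2)
  let κ'' : (Additive Kˣ ⧸ κ'.ker) →+ (Additive Ωˣ ⧸ U) := QuotientAddGroup.kerLift κ'
  let l'' : (Additive Kˣ ⧸ κ'.ker) →+ ℚ := QuotientAddGroup.lift κ'.ker l hker
  obtain ⟨h, hh⟩ : ∃ h : (Additive Ωˣ ⧸ U) →+ ℚ, h.comp κ'' = l'' :=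
    Module.Baer.extension_property_addMonoidHom (M := Additive Kˣ ⧸ κ'.ker)
      (N := Additive Ωˣ ⧸ U) (Module.Baer.of_divisible ℚ) κ''
      (QuotientAddGroup.kerLift_injective κ') l''
  have hzero : ∀ w : Ωˣ, A.valuation (w : Ω) = 1 →
      h ((QuotientAddGroup.mk' U) (Additive.ofMul w)) = 0 := by
    intro w hw
    have : (QuotientAddGroup.mk' U) (Additive.ofMul w) = 0 :=
      (QuotientAddGroup.eq_zero_iff _).mpr hw
    rw [this, map_zero]
  refine ⟨A, h.comp (QuotientAddGroup.mk' U), ?_, hzero, ?_⟩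
  · intro c w hw
    have hw' : w = Units.map (algebraMap K Ω : K →* Ω) c := by
      ext; simpa using hw
    have h1 : h (κ'' (QuotientAddGroup.mk (Additive.ofMul c))) =
        l'' (QuotientAddGroup.mk (Additive.ofMul c)) := DFunLike.congr_fun hh _
    have h2 : κ'' (QuotientAddGroup.mk (Additive.ofMul c)) =
        (QuotientAddGroup.mk' U) (Additive.ofMul w) := by
      rw [hw']; rfl
    rw [h2] at h1
    exact h1
  · intro i w hw
    refine hzero w ?_
    have h1 : ψ (X i) = y i := by simp [ψ]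
    rw [hw, ← h1, hunit]
    intro hmem
    have h2 : φ (X i) = 1 := by simp [φ]
    have h3 : φ (X i) = 0 := hmem
    rw [h2] at h3
    exact one_ne_zero h3

/-- The homomorphism given by a valuation. -/
theorem exists_log {K : Type*} [Field K] (v : Valuation K ℤᵐ⁰) :
    ∃ l : Additive Kˣ →+ ℚ, (∀ c : Kˣ, l (Additive.ofMul c) = ((log (v (c : K)) : ℤ) : ℚ)) ∧
      ∀ c : Kˣ, v.valuationSubring.valuation (c : K) = 1 → l (Additive.ofMul c) = 0 := by
  let l : Additive Kˣ →+ ℚ :=
    { toFun := fun c => ((WithZero.log (v ((Additive.toMul c : Kˣ) : K)) : ℤ) : ℚ)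
      map_zero' := by simp
      map_add' := by
        intro a b
        have ha : v ((Additive.toMul a : Kˣ) : K) ≠ 0 := by simp
        have hb : v ((Additive.toMul b : Kˣ) : K) ≠ 0 := by simp
        simp only [toMul_add, Units.val_mul, map_mul]
        rw [WithZero.log_mul ha hb]
        push_cast
        ring }
  refine ⟨l, fun c => rfl, fun c hc => ?_⟩
  have h3 := (Valuation.isEquiv_iff_val_eq_one.mp v.isEquiv_valuation_valuationSubring).mpr hc
  show ((WithZero.log (v (c : K)) : ℤ) : ℚ) = 0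
  rw [h3]
  simp

/-- Ties for homomorphisms vanishing on the units of a valuation ring. -/
theorem exists_tie {Ω : Type*} [Field Ω] (A : ValuationSubring Ω) (z : Additive Ωˣ →+ ℚ)
    (hz : ∀ w : Ωˣ, A.valuation (w : Ω) = 1 → z (Additive.ofMul w) = 0) {ι : Type*} (s : Finset ι)
    (hs : s.Nonempty) (u : ι → Ωˣ) (h0 : ∑ i ∈ s, (u i : Ω) = 0) :
    ∃ a ∈ s, ∃ b ∈ s, a ≠ b ∧ z (Additive.ofMul (u a)) = z (Additive.ofMul (u b)) := by
  obtain ⟨a, ha, b, hb, hab, hv⟩ := tie_of_sum_eq_zero A s hs u h0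
  refine ⟨a, ha, b, hb, hab, ?_⟩
  have h1 : A.valuation (((u a) * (u b)⁻¹ : Ωˣ) : Ω) = 1 := by
    rw [Units.val_mul, map_mul, hv, ← map_mul, ← Units.val_mul]
    simp
  have h2 := hz _ h1
  rw [ofMul_mul, ofMul_inv, map_add, map_neg] at h2
  linarith

/-- Multiplicative relations between algebraically independent elements are trivial. -/
theorem eq_zero_of_prod_zpow {Ω E : Type*} [Field Ω] [Field E] [Algebra Ω E] {ι : Type}
    [Fintype ι] (y : ι → Eˣ) (hy : AlgebraicIndependent Ω (fun t => (y t : E))) (a : ι → ℤ)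
    (u : Ωˣ) (h : ∏ t, y t ^ a t = Units.map (algebraMap Ω E : Ω →* E) u) : a = 0 := by
  classical
  have h1 : ∏ t, y t ^ (a t).toNat =
      Units.map (algebraMap Ω E : Ω →* E) u * ∏ t, y t ^ (-a t).toNat := by
    have h2 : ∀ t, y t ^ (a t).toNat = y t ^ a t * y t ^ (-a t).toNat := by
      intro t
      rw [← zpow_natCast, ← zpow_natCast, ← zpow_add]
      congr 1
      omega
    rw [Finset.prod_congr rfl fun t _ => h2 t, Finset.prod_mul_distrib, h]
  let m1 : ι →₀ ℕ := Finsupp.equivFunOnFinite.symm fun t => (a t).toNat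
  let m2 : ι →₀ ℕ := Finsupp.equivFunOnFinite.symm fun t => (-a t).toNat
  have h3 : aeval (fun t => (y t : E)) (monomial m1 (1 : Ω)) =
      aeval (fun t => (y t : E)) (monomial m2 (u : Ω)) := by
    rw [aeval_monomial, aeval_monomial, map_one, one_mul,
      Finsupp.prod_fintype _ _ (fun _ => pow_zero _), Finsupp.prod_fintype _ _ (fun _ => pow_zero _)]
    have := congrArg (fun u : Eˣ => (u : E)) h1
    simpa [m1, m2, Units.coe_prod] using this
  have h4 : (monomial m1 (1 : Ω)) = monomial m2 (u : Ω) := hy h3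
  have h5 : m1 = m2 := by
    by_contra hne
    have h6 := congrArg (coeff m1) h4
    rw [coeff_monomial, coeff_monomial, if_pos rfl, if_neg (Ne.symm hne)] at h6
    exact one_ne_zero h6
  funext t
  have h6 : (a t).toNat = (-a t).toNat := by
    have := DFunLike.congr_fun h5 t
    simpa [m1, m2] using this
  show a t = 0
  omega

/-- Coordinates forming an algebraically independent family together with multiplicative
relations modulo radicals of constants give linearly independent forms. -/
theorem exists_forms {Ω E : Type*} [Field Ω] [Field E] [Algebra Ω E] {n h k : ℕ}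
    (y : Fin n → Eˣ) (S : Finset (Fin n))
    (hS : AlgebraicIndependent Ω (fun t : {t // t ∈ S} => (y t : E)))
    (Λ : Fin h → (Fin n → ℤ)) (hΛ : LinearIndependent ℤ Λ)
    (hy : ∀ i, ∃ (m : ℕ) (u : Ωˣ), 0 < m ∧
      (∏ t, y t ^ (Λ i t)) ^ m = Units.map (algebraMap Ω E : Ω →* E) u) (hk : k ≤ S.card + h) :
    ∃ Λ' : Fin k → (Fin n → ℤ), LinearIndependent ℤ Λ' ∧
      ∀ z : Additive Eˣ →+ ℚ, (∀ t ∈ S, z (Additive.ofMul (y t)) = 0) →
        (∀ i, z (Additive.ofMul (∏ t, y t ^ (Λ i t))) = 0) →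
        ∀ i, ∑ t, (Λ' i t : ℚ) * z (Additive.ofMul (y t)) = 0 := by
  classical
  let Θ : {t // t ∈ S} ⊕ Fin h → (Fin n → ℤ) := Sum.elim (fun t => Pi.single t.1 1) Λ
  let Φ : (Fin n → ℤ) →+ Additive Eˣ :=
    { toFun := fun a => Additive.ofMul (∏ t, y t ^ a t)
      map_zero' := by simp
      map_add' := by
        intro a b
        simp only [Pi.add_apply, zpow_add, Finset.prod_mul_distrib, ofMul_mul] }
  have hΦ : ∀ a : Fin n → ℤ, Φ a = Additive.ofMul (∏ t, y t ^ a t) := fun a => rfl
  let V : AddSubgroup (Additive Eˣ) :=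
    (Units.map (algebraMap Ω E : Ω →* E)).range.toAddSubgroup
  have hV : ∀ w : Additive Eˣ, w ∈ V → ∃ u : Ωˣ, Additive.toMul w =
      Units.map (algebraMap Ω E : Ω →* E) u := by
    rintro w ⟨u, hu⟩
    exact ⟨u, hu.symm⟩
  obtain ⟨m, hm0, hm⟩ : ∃ m : ℤ, m ≠ 0 ∧ ∀ i, Φ (m • Λ i) ∈ V := by
    choose m u hm hu using hy
    refine ⟨∏ i, (m i : ℤ), ?_, fun i => ?_⟩
    · refine Finset.prod_ne_zero_iff.mpr fun i _ => ?_
      have := hm i
      omega
    · obtain ⟨q, hq⟩ := Finset.dvd_prod_of_mem (fun i => (m i : ℤ)) (Finset.mem_univ i)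
      rw [hq, map_zsmul, mul_comm, mul_smul]
      refine V.zsmul_mem ?_ q
      rw [hΦ, ← ofMul_zpow, zpow_natCast, hu i]
      exact ⟨u i, rfl⟩
  have hΘ : LinearIndependent ℤ Θ := by
    rw [Fintype.linearIndependent_iff]
    intro c hc
    rw [Fintype.sum_sum_type] at hc
    have hA : ∀ s : {t // t ∈ S}, (∑ s : {t // t ∈ S}, c (Sum.inl s) • Θ (Sum.inl s)) s.1 =
        c (Sum.inl s) := by
      intro s
      simp only [Θ, Sum.elim_inl, Finset.sum_apply, Pi.smul_apply, smul_eq_mul]
      rw [Finset.sum_eq_single s]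
      · simp
      · intro s' _ hs'
        rw [Pi.single_eq_of_ne (fun h => hs' (Subtype.ext h.symm)), mul_zero]
      · intro h
        exact absurd (Finset.mem_univ s) h
    have hA' : ∀ t ∉ S, (∑ s : {t // t ∈ S}, c (Sum.inl s) • Θ (Sum.inl s)) t = 0 := by
      intro t ht
      simp only [Θ, Sum.elim_inl, Finset.sum_apply, Pi.smul_apply, smul_eq_mul]
      refine Finset.sum_eq_zero fun s _ => ?_
      rw [Pi.single_eq_of_ne (fun h => ht (by rw [h]; exact s.2)), mul_zero]
    have h1 : Φ (m • ∑ s : {t // t ∈ S}, c (Sum.inl s) • Θ (Sum.inl s)) ∈ V := by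
      have h2 := congrArg (fun u => Φ (m • u)) hc
      simp only [smul_add, map_add, smul_zero, map_zero] at h2
      have h3 : Φ (m • ∑ i : Fin h, c (Sum.inr i) • Θ (Sum.inr i)) ∈ V := by
        rw [Finset.smul_sum, map_sum]
        refine V.sum_mem fun i _ => ?_
        rw [smul_comm, map_zsmul]
        exact V.zsmul_mem (hm i) _
      rw [eq_neg_of_add_eq_zero_left h2]
      exact V.neg_mem h3
    obtain ⟨u, hu⟩ := hV _ h1
    have h4 : ∏ s : {t // t ∈ S}, y s ^ (m * c (Sum.inl s)) =
        Units.map (algebraMap Ω E : Ω →* E) u := by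
      have h5 : ∏ t, y t ^ ((m • ∑ s : {t // t ∈ S}, c (Sum.inl s) • Θ (Sum.inl s)) t) =
          Units.map (algebraMap Ω E : Ω →* E) u := hu
      rw [← Finset.prod_subset (Finset.subset_univ S) (fun t _ ht => by
        rw [Pi.smul_apply, hA' t ht, smul_zero, zpow_zero]), ← Finset.prod_coe_sort S] at h5
      rw [← h5]
      refine Finset.prod_congr rfl fun s _ => ?_
      rw [Pi.smul_apply, hA s, smul_eq_mul]
    have h6 := eq_zero_of_prod_zpow (Ω := Ω) (fun s : {t // t ∈ S} => y s) hS
      (fun s => m * c (Sum.inl s)) u h4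
    have h7 : ∀ s : {t // t ∈ S}, c (Sum.inl s) = 0 := by
      intro s
      have h8 : m * c (Sum.inl s) = 0 := congrFun h6 s
      exact (mul_eq_zero.mp h8).resolve_left hm0
    have h9 : ∑ i : Fin h, c (Sum.inr i) • Λ i = 0 := by
      simp only [h7, zero_smul, Finset.sum_const_zero, zero_add] at hc
      exact hc
    have h10 := (Fintype.linearIndependent_iff.mp hΛ) (fun i => c (Sum.inr i)) h9
    rintro (s | i)
    · exact h7 s
    · exact h10 i
  have hcard : Fintype.card (Fin k) ≤ Fintype.card ({t // t ∈ S} ⊕ Fin h) := by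
    rw [Fintype.card_sum, Fintype.card_coe, Fintype.card_fin, Fintype.card_fin]
    exact hk
  obtain ⟨emb⟩ := Function.Embedding.nonempty_of_card_le hcard
  refine ⟨fun i => Θ (emb i), hΘ.comp _ emb.injective, fun z hz hz' i => ?_⟩
  have hzΦ : ∀ a : Fin n → ℤ, ∑ t, (a t : ℚ) * z (Additive.ofMul (y t)) = z (Φ a) := by
    intro a
    rw [hΦ, ofMul_prod, map_sum]
    refine Finset.sum_congr rfl fun t _ => ?_
    rw [ofMul_zpow, map_zsmul, zsmul_eq_mul]
  rw [hzΦ]
  show z (Φ (Θ (emb i))) = 0
  rcases emb i with s | i'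
  · rw [← hzΦ]
    show ∑ t, ((Pi.single s.1 1 : Fin n → ℤ) t : ℚ) * z (Additive.ofMul (y t)) = 0
    rw [Finset.sum_eq_single s.1]
    · rw [hz s.1 s.2, mul_zero]
    · intro t _ ht
      rw [Pi.single_eq_of_ne ht]
      simp
    · intro h
      exact absurd (Finset.mem_univ _) h
  · exact hz' i'

end Pool.Agent.Lib.MP_a325a5_ag
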