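import Mathlib

/-! Zeros of a nonzero polynomial in a grid and on a line through the origin. -/

namespace Pool.Agent.Lib.MP_a325a5_ag

open MvPolynomial

/-- The zeros of a nonzero polynomial in a grid of integer vectors. -/
theorem card_zeros_grid_le {τ : Type} [Fintype τ] [DecidableEq τ]
    (F : MvPolynomial τ ℚ) (hF : F ≠ 0) (S : Finset ℤ) :
    ((Fintype.piFinset fun _ : τ => S).filter fun e =>
        eval (fun i => ((e i : ℤ) : ℚ)) F = 0).card * S.card ≤
      F.totalDegree * S.card ^ Fintype.card τ := by
  classical
  rcases Nat.eq_zero_or_pos S.card with h0 | hpos0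
  · rw [h0, mul_zero]
    exact Nat.zero_le _
  let κ : τ ≃ Fin (Fintype.card τ) := Fintype.equivFin _
  let F2 : MvPolynomial (Fin (Fintype.card τ)) ℚ := rename κ F
  have hF2 : F2 ≠ 0 := by
    intro h
    apply hF
    exact rename_injective (R := ℚ) κ κ.injective (by rw [map_zero]; exact h)
  have hdeg : F2.totalDegree ≤ F.totalDegree := totalDegree_rename_le κ F
  let S' : Finset ℚ := S.map ⟨fun z : ℤ => (z : ℚ), Int.cast_injective⟩
  have hS : S'.card = S.card := Finset.card_map _
  have hSZ := schwartz_zippel_totalDegree hF2 S'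
  have hcard : ((Fintype.piFinset fun _ : τ => S).filter fun e =>
        eval (fun i => ((e i : ℤ) : ℚ)) F = 0).card ≤
      ((Fintype.piFinset fun _ : Fin (Fintype.card τ) => S').filter fun f =>
        eval f F2 = 0).card := by
    refine Finset.card_le_card_of_injOn (fun e => fun i => ((e (κ.symm i) : ℤ) : ℚ)) ?_ ?_
    · intro e he
      have he' := Finset.mem_filter.mp he
      refine Finset.mem_filter.mpr ⟨?_, ?_⟩
      · rw [Fintype.mem_piFinset]
        intro i
        have := Fintype.mem_piFinset.mp he'.1 (κ.symm i)
        exact Finset.mem_map.mpr ⟨_, this, rfl⟩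
      · rw [← he'.2]
        show eval _ (rename κ F) = _
        rw [eval_rename]
        congr 2
        funext i
        simp
    · intro e _ e' _ h
      funext i
      have := congrFun h (κ i)
      simpa using this
  have hpos : (0 : ℚ≥0) < ((S.card : ℕ) : ℚ≥0) := by
    exact_mod_cast hpos0
  rw [hS] at hSZ
  rw [div_le_div_iff₀ (pow_pos hpos _) hpos] at hSZ
  have h6 : ((Fintype.piFinset fun _ : Fin (Fintype.card τ) => S').filter fun f =>
        eval f F2 = 0).card * S.card ≤
      F2.totalDegree * S.card ^ (Fintype.card τ) := by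
    exact_mod_cast hSZ
  exact ((Nat.mul_le_mul_right _ hcard).trans h6).trans (Nat.mul_le_mul_right _ hdeg)

/-- The top homogeneous component of a nonzero polynomial is not zero. -/
theorem top_ne_zero {τ : Type} (F : MvPolynomial τ ℚ) (hF : F ≠ 0) :
    homogeneousComponent F.totalDegree F ≠ 0 := by
  classical
  intro h
  obtain ⟨d, hd, hdeg⟩ : ∃ d ∈ F.support, F.totalDegree = d.sum fun _ e => e := by
    have hne : F.support.Nonempty := by
      rw [Finset.nonempty_iff_ne_empty]
      exact fun h => hF (support_eq_empty.mp h)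
    exact Finset.exists_mem_eq_sup _ hne _
  have h1 := congrArg (coeff d) h
  rw [coeff_homogeneousComponent, coeff_zero] at h1
  have h2 : d.degree = F.totalDegree := by
    rw [hdeg]
    rfl
  rw [if_pos h2] at h1
  exact (mem_support_iff.mp hd) h1

/-- Evaluation of a homogeneous polynomial at a multiple of a point. -/
theorem eval_smul_homog {τ : Type} (F : MvPolynomial τ ℚ) (k : ℕ) (E : τ → ℚ) (m : ℚ) :
    eval (fun i => m * E i) (homogeneousComponent k F) =
      m ^ k * eval E (homogeneousComponent k F) := by
  classical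
  rw [eval_eq, eval_eq, Finset.mul_sum]
  refine Finset.sum_congr rfl fun d hd => ?_
  have h1 : d.degree = k := by
    rw [mem_support_iff, coeff_homogeneousComponent] at hd
    by_contra hne
    rw [if_neg hne] at hd
    exact hd rfl
  have h2 : ∏ i ∈ d.support, (m * E i) ^ d i = m ^ k * ∏ i ∈ d.support, E i ^ d i := by
    rw [← h1]
    simp only [mul_pow, Finset.prod_mul_distrib]
    congr 1
    rw [Finset.prod_pow_eq_pow_sum]
    rfl
  rw [h2]
  ring

/-- A polynomial of degree `D` has at most `D` zeros among the integral multiples of a point at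
which its top homogeneous component does not vanish. -/
theorem encard_zeros_line_le {τ : Type} (F : MvPolynomial τ ℚ) (E : τ → ℚ)
    (hE : eval E (homogeneousComponent F.totalDegree F) ≠ 0) :
    {m : ℤ | eval (fun i => (m : ℚ) * E i) F = 0}.encard ≤ F.totalDegree := by
  classical
  let R : Polynomial ℚ := ∑ k ∈ Finset.range (F.totalDegree + 1),
    Polynomial.C (eval E (homogeneousComponent k F)) * Polynomial.X ^ k
  have hRc : R.coeff F.totalDegree = eval E (homogeneousComponent F.totalDegree F) := by
    simp only [R, Polynomial.finsetSum_coeff, Polynomial.coeff_C_mul_X_pow]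
    rw [Finset.sum_ite_eq (Finset.range (F.totalDegree + 1)) F.totalDegree]
    simp
  have hR0 : R ≠ 0 := by
    intro h
    apply hE
    rw [← hRc, h, Polynomial.coeff_zero]
  have hRd : R.natDegree ≤ F.totalDegree := by
    refine Polynomial.natDegree_sum_le_of_forall_le _ _ fun k hk => ?_
    refine (Polynomial.natDegree_C_mul_X_pow_le _ _).trans ?_
    have := Finset.mem_range.mp hk
    omega
  have hev : ∀ m : ℚ, R.eval m = eval (fun i => m * E i) F := by
    intro m
    conv_rhs => rw [← sum_homogeneousComponent F]
    rw [map_sum, Polynomial.eval_finsetSum]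
    refine Finset.sum_congr rfl fun k _ => ?_
    rw [eval_smul_homog, Polynomial.eval_mul, Polynomial.eval_C, Polynomial.eval_pow,
      Polynomial.eval_X, mul_comm]
  have h1 : {m : ℤ | eval (fun i => (m : ℚ) * E i) F = 0} ⊆
      (fun z : ℤ => (z : ℚ)) ⁻¹' (R.roots.toFinset : Set ℚ) := by
    intro m hm
    simp only [Set.mem_preimage, Finset.mem_coe, Multiset.mem_toFinset]
    rw [Polynomial.mem_roots hR0, Polynomial.IsRoot.def, hev]
    exact hm
  calc {m : ℤ | eval (fun i => (m : ℚ) * E i) F = 0}.encard
      ≤ ((fun z : ℤ => (z : ℚ)) ⁻¹' (R.roots.toFinset : Set ℚ)).encard := Set.encard_le_encard h1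
    _ = ((fun z : ℤ => (z : ℚ)) '' ((fun z : ℤ => (z : ℚ)) ⁻¹'
          (R.roots.toFinset : Set ℚ))).encard :=
        (Function.Injective.encard_image Int.cast_injective _).symm
    _ ≤ (R.roots.toFinset : Set ℚ).encard := Set.encard_le_encard (Set.image_preimage_subset _ _)
    _ = (R.roots.toFinset.card : ℕ∞) := Set.encard_coe_eq_coe_finsetCard _
    _ ≤ F.totalDegree := by
        have h2 : R.roots.toFinset.card ≤ F.totalDegree :=
          (Multiset.toFinset_card_le _).trans ((Polynomial.card_roots' R).trans hRd)
        exact_mod_cast h2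

/-- Substituting linear forms does not raise the degree. -/
theorem totalDegree_subst_le {σ τ : Type} (g : τ → MvPolynomial σ ℚ)
    (hg : ∀ i, (g i).totalDegree ≤ 1) (F : MvPolynomial τ ℚ) :
    (aeval g F).totalDegree ≤ F.totalDegree := by
  classical
  rw [aeval_def, eval₂_eq]
  refine totalDegree_finsetSum_le fun d hd => ?_
  refine (totalDegree_mul _ _).trans ?_
  rw [MvPolynomial.algebraMap_eq, totalDegree_C, zero_add]
  refine (totalDegree_finsetProd _ _).trans ?_
  refine le_trans ?_ (le_totalDegree hd)
  refine Finset.sum_le_sum fun i _ => ?_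
  refine (totalDegree_pow _ _).trans ?_
  calc d i * (g i).totalDegree ≤ d i * 1 := Nat.mul_le_mul_left _ (hg i)
    _ = d i := mul_one _

end Pool.Agent.Lib.MP_a325a5_ag
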