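import Mathlib

/-! Algebraic relations of bounded degree between quadratic polynomials. -/

namespace Pool.Agent.Lib.MP_a325a5_ag

open MvPolynomial

/-- A bound for the degree of an algebraic relation between `p` quadratic polynomials in less than
`p` variables. -/
def relDeg (p : ℕ) : ℕ := p * (2 * p) ^ (p - 1)

/-- More polynomials of degree at most two than variables satisfy an algebraic relation of
degree bounded in terms of their number. -/
theorem exists_relation_deg {ι κ : Type} [Fintype ι] [Fintype κ]
    (hcard : Fintype.card κ < Fintype.card ι) (g : ι → MvPolynomial κ ℚ)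
    (hg : ∀ i, (g i).totalDegree ≤ 2) :
    ∃ F : MvPolynomial ι ℚ, F ≠ 0 ∧ aeval g F = 0 ∧
      F.totalDegree ≤ relDeg (Fintype.card ι) := by
  classical
  set p := Fintype.card ι with hp
  set e := (2 * p) ^ (p - 1) with he
  -- exponents
  let ex : (ι → Fin (e + 1)) → (ι →₀ ℕ) := fun m => Finsupp.equivFunOnFinite.symm fun i => (m i : ℕ)
  have hexinj : Function.Injective ex := by
    intro m m' h
    funext i
    have := DFunLike.congr_fun h i
    exact Fin.ext this
  let G : (ι → Fin (e + 1)) → MvPolynomial κ ℚ := fun m => ∏ i, g i ^ (m i : ℕ)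
  have hGdeg : ∀ m, (G m).totalDegree ≤ 2 * (p * e) := by
    intro m
    refine (totalDegree_finsetProd _ _).trans ?_
    calc ∑ i, (g i ^ (m i : ℕ)).totalDegree ≤ ∑ _i : ι, 2 * e := by
          refine Finset.sum_le_sum fun i _ => ?_
          refine (totalDegree_pow _ _).trans ?_
          calc (m i : ℕ) * (g i).totalDegree ≤ e * 2 :=
                Nat.mul_le_mul (Nat.lt_succ_iff.mp (m i).2) (hg i)
            _ = 2 * e := mul_comm _ _
      _ = 2 * (p * e) := by
          rw [Finset.sum_const, Finset.card_univ, smul_eq_mul]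
          ring
  let L : ((ι → Fin (e + 1)) → ℚ) →ₗ[ℚ] ((κ → Fin (2 * (p * e) + 1)) → ℚ) :=
    { toFun := fun c b => ∑ m, c m *
        coeff (Finsupp.equivFunOnFinite.symm fun i => (b i : ℕ)) (G m)
      map_add' := by
        intro c c'
        funext b
        simp [add_mul, Finset.sum_add_distrib]
      map_smul' := by
        intro r c
        funext b
        simp [mul_assoc, Finset.mul_sum] }
  have hdim : Module.finrank ℚ ((κ → Fin (2 * (p * e) + 1)) → ℚ) <
      Module.finrank ℚ ((ι → Fin (e + 1)) → ℚ) := by
    rw [Module.finrank_fintype_fun_eq_card, Module.finrank_fintype_fun_eq_card,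
      Fintype.card_fun, Fintype.card_fun, Fintype.card_fin, Fintype.card_fin, ← hp]
    have hp1 : 1 ≤ p := by omega
    have h1 : 2 * (p * e) + 1 ≤ 2 * p * (e + 1) := by nlinarith
    calc (2 * (p * e) + 1) ^ Fintype.card κ ≤ (2 * (p * e) + 1) ^ (p - 1) :=
          Nat.pow_le_pow_right (by omega) (by omega)
      _ ≤ (2 * p * (e + 1)) ^ (p - 1) := Nat.pow_le_pow_left h1 _
      _ = e * (e + 1) ^ (p - 1) := by rw [mul_pow]
      _ < (e + 1) * (e + 1) ^ (p - 1) :=
          Nat.mul_lt_mul_of_pos_right (Nat.lt_succ_self e) (pow_pos (Nat.succ_pos e) _)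
      _ = (e + 1) ^ p := by
          rw [← pow_succ']
          congr 1
          omega
  have hker := LinearMap.ker_ne_bot_of_finrank_lt (f := L) hdim
  obtain ⟨c, hc, hc0⟩ := (Submodule.ne_bot_iff _).mp hker
  rw [LinearMap.mem_ker] at hc
  refine ⟨∑ m, monomial (ex m) (c m), ?_, ?_, ?_⟩
  · intro h
    apply hc0
    funext m
    have h1 := congrArg (coeff (ex m)) h
    rw [coeff_sum, coeff_zero] at h1
    rw [Finset.sum_eq_single m] at h1
    · rw [coeff_monomial, if_pos rfl] at h1
      exact h1
    · intro m' _ hne
      rw [coeff_monomial, if_neg fun h => hne (hexinj h)]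
    · intro h
      exact absurd (Finset.mem_univ m) h
  · have h1 : aeval g (∑ m, monomial (ex m) (c m)) = ∑ m, C (c m) * G m := by
      rw [map_sum]
      refine Finset.sum_congr rfl fun m _ => ?_
      rw [aeval_monomial, MvPolynomial.algebraMap_eq]
      congr 1
      rw [Finsupp.prod_fintype]
      · rfl
      · intro i
        exact pow_zero _
    rw [h1]
    ext b
    rw [coeff_zero, coeff_sum]
    simp only [coeff_C_mul]
    by_cases hb : ∀ i, b i < 2 * (p * e) + 1
    · have h2 := congrFun hc fun i => ⟨b i, hb i⟩
      have h3 : (Finsupp.equivFunOnFinite.symm fun i => b i) = b := by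
        ext i
        rfl
      simp only [L, LinearMap.coe_mk, AddHom.coe_mk, Pi.zero_apply] at h2
      rw [h3] at h2
      exact h2
    · push Not at hb
      obtain ⟨i, hi⟩ := hb
      refine Finset.sum_eq_zero fun m _ => ?_
      have h2 : coeff b (G m) = 0 := by
        by_contra hne
        have h3 := le_totalDegree (mem_support_iff.mpr hne)
        have h4 : b i ≤ b.sum fun _ e => e := by
          rw [Finsupp.sum_fintype _ _ (fun _ => rfl)]
          exact Finset.single_le_sum (f := fun i => b i) (fun _ _ => Nat.zero_le _)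
            (Finset.mem_univ i)
        have h5 := hGdeg m
        omega
      rw [h2, mul_zero]
  · refine totalDegree_finsetSum_le fun m _ => ?_
    refine (totalDegree_monomial_le _ _).trans ?_
    rw [Finsupp.sum_fintype _ _ (fun _ => rfl)]
    calc ∑ i, ex m i ≤ ∑ _i : ι, e := Finset.sum_le_sum fun i _ => Nat.lt_succ_iff.mp (m i).2
      _ = relDeg p := by
        rw [Finset.sum_const, Finset.card_univ, smul_eq_mul]
        rfl

end Pool.Agent.Lib.MP_a325a5_ag
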