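import Mathlib

/-! Counting the integer vectors in a box at which a polynomial in linear forms vanishes. -/

namespace Pool.Agent.Lib.MP_a325a5_ag

open MvPolynomial WithZero

/-- Substituting linearly independent linear forms into a nonzero polynomial. -/
theorem subst_ne_zero {N s : ℕ} {σ : Type} [Fintype σ] [DecidableEq σ]
    (a : Fin N → Fin s → ℤ) (ha : LinearIndependent ℤ a)
    (F : MvPolynomial (Fin N × σ) ℚ) (hF : F ≠ 0) :
    aeval (fun jt : Fin N × σ => ∑ i, C ((a jt.1 i : ℤ) : ℚ) *
      (X (i, jt.2) : MvPolynomial (Fin s × σ) ℚ)) F ≠ 0 := by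
  classical
  -- a right inverse
  have hli : LinearIndependent ℚ (fun j i => ((a j i : ℤ) : ℚ)) := by
    rw [← LinearIndependent.iff_fractionRing ℤ ℚ]
    have hinj : Function.Injective
        (LinearMap.pi (fun t : Fin s => (Algebra.linearMap ℤ ℚ).comp (LinearMap.proj t)) :
          (Fin s → ℤ) →ₗ[ℤ] (Fin s → ℚ)) := by
      intro a b hab
      ext t
      have := congrFun hab t
      simpa using this
    exact ha.map' _ (LinearMap.ker_eq_bot.mpr hinj)
  obtain ⟨B, hB⟩ : ∃ B : Fin s → Fin N → ℚ, ∀ j k, ∑ i, ((a j i : ℤ) : ℚ) * B i k =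
      if j = k then 1 else 0 := by
    let A : Matrix (Fin N) (Fin s) ℚ := fun j i => ((a j i : ℤ) : ℚ)
    have hA : LinearIndependent ℚ A.row := hli
    have hrank : A.rank = N := by
      have := hA.rank_matrix
      simpa using this
    have hsurj : Function.Surjective A.mulVec := by
      have h1 : LinearMap.range A.mulVecLin = ⊤ := by
        apply Submodule.eq_top_of_finrank_eq
        rw [Module.finrank_fintype_fun_eq_card, Fintype.card_fin]
        exact hrank
      intro x
      obtain ⟨y, hy⟩ := LinearMap.range_eq_top.mp h1 x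
      exact ⟨y, hy⟩
    obtain ⟨B, hB⟩ := Matrix.mulVec_surjective_iff_exists_right_inverse.mp hsurj
    refine ⟨B, fun j k => ?_⟩
    have := congrFun (congrFun hB j) k
    rw [Matrix.mul_apply, Matrix.one_apply] at this
    exact this
  intro h
  apply hF
  have h1 : (aeval (fun it : Fin s × σ => ∑ k, C (B it.1 k) *
      (X (k, it.2) : MvPolynomial (Fin N × σ) ℚ)) : MvPolynomial (Fin s × σ) ℚ →ₐ[ℚ] _).comp
      (aeval (fun jt : Fin N × σ => ∑ i, C ((a jt.1 i : ℤ) : ℚ) *
      (X (i, jt.2) : MvPolynomial (Fin s × σ) ℚ))) =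
      AlgHom.id ℚ (MvPolynomial (Fin N × σ) ℚ) := by
    apply MvPolynomial.algHom_ext
    rintro ⟨j, t⟩
    rw [AlgHom.comp_apply, aeval_X, AlgHom.id_apply, map_sum]
    have h2 : ∀ i, (aeval (fun it : Fin s × σ => ∑ k, C (B it.1 k) *
        (X (k, it.2) : MvPolynomial (Fin N × σ) ℚ))) (C ((a j i : ℤ) : ℚ) *
        (X (i, t) : MvPolynomial (Fin s × σ) ℚ)) =
        ∑ k, C (((a j i : ℤ) : ℚ) * B i k) * (X (k, t) : MvPolynomial (Fin N × σ) ℚ) := by
      intro i
      rw [map_mul, aeval_X, aeval_C, Finset.mul_sum]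
      refine Finset.sum_congr rfl fun k _ => ?_
      rw [MvPolynomial.algebraMap_eq, C_mul, mul_assoc]
    rw [Finset.sum_congr rfl fun i _ => h2 i, Finset.sum_comm]
    simp only [← Finset.sum_mul, ← map_sum, hB]
    rw [Finset.sum_eq_single j]
    · simp
    · intro k _ hk
      rw [if_neg (Ne.symm hk), C_0, zero_mul]
    · intro h
      exact absurd (Finset.mem_univ j) h
  have h2 := DFunLike.congr_fun h1 F
  rw [AlgHom.comp_apply, h, map_zero, AlgHom.id_apply] at h2
  exact h2.symm

/-- The proportion of zeros of a nonzero polynomial in a growing box. -/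
theorem card_zeros_le {τ : Type} [Fintype τ] [DecidableEq τ]
    (F : MvPolynomial τ ℚ) (hF : F ≠ 0) :
    ∃ C : ℕ, ∀ T : ℕ,
      ((Fintype.piFinset fun _ : τ => Finset.Icc (-(T : ℤ)) T).filter fun e =>
        eval (fun i => ((e i : ℤ) : ℚ)) F = 0).card * (2 * T + 1) ≤
      C * (2 * T + 1) ^ Fintype.card τ := by
  classical
  let κ : τ ≃ Fin (Fintype.card τ) := Fintype.equivFin _
  let F2 : MvPolynomial (Fin (Fintype.card τ)) ℚ := rename κ F
  have hF2 : F2 ≠ 0 := by
    intro h
    apply hF
    exact rename_injective (R := ℚ) κ κ.injective (by rw [map_zero]; exact h)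
  refine ⟨F2.totalDegree, fun T => ?_⟩
  let S : Finset ℚ := (Finset.Icc (-(T : ℤ)) T).map ⟨fun z : ℤ => (z : ℚ), Int.cast_injective⟩
  have hS : S.card = 2 * T + 1 := by
    rw [Finset.card_map, Int.card_Icc]
    omega
  have hSZ := schwartz_zippel_totalDegree hF2 S
  have hcard : ((Fintype.piFinset fun _ : τ => Finset.Icc (-(T : ℤ)) T).filter fun e =>
        eval (fun i => ((e i : ℤ) : ℚ)) F = 0).card ≤
      ((Fintype.piFinset fun _ : Fin (Fintype.card τ) => S).filter fun f =>
        eval f F2 = 0).card := by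
    refine Finset.card_le_card_of_injOn (fun e => fun i => ((e (κ.symm i) : ℤ) : ℚ)) ?_ ?_
    · intro e he
      have he' := Finset.mem_filter.mp he
      refine Finset.mem_filter.mpr ⟨?_, ?_⟩
      · rw [Fintype.mem_piFinset]
        intro i
        have := Fintype.mem_piFinset.mp he'.1 (κ.symm i)
        exact Finset.mem_map.mpr ⟨_, this, rfl⟩
      · rw [← he'.2]
        show eval _ (rename κ F) = _
        rw [eval_rename]
        congr 2
        funext i
        simp
    · intro e _ e' _ h
      funext i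
      have := congrFun h (κ i)
      simpa using this
  have hpos : (0 : ℚ≥0) < ((2 * T + 1 : ℕ) : ℚ≥0) := by
    exact_mod_cast Nat.succ_pos _
  rw [hS] at hSZ
  rw [div_le_div_iff₀ (pow_pos hpos _) hpos] at hSZ
  have h6 : ((Fintype.piFinset fun _ : Fin (Fintype.card τ) => S).filter fun f =>
        eval f F2 = 0).card * (2 * T + 1) ≤
      F2.totalDegree * (2 * T + 1) ^ (Fintype.card τ) := by
    exact_mod_cast hSZ
  exact (Nat.mul_le_mul_right _ hcard).trans h6

end Pool.Agent.Lib.MP_a325a5_ag
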