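import Pool.Agent.Lib.MP_a325a5_ag.Atyp
import Pool.Agent.Lib.MP_a325a5_ag.Affine
import Pool.Agent.Lib.MP_a325a5_ag.Dim

/-! Translates of closed subsets of the torus. -/

namespace Pool.Agent.Lib.MP_a325a5_ag

open MvPolynomial WithZero

universe u w z

/-- Let `X` be the closed subset of the torus over `Ω` cut out by the ideal `I`, let `v j` be
valuations on a subfield `K` of `Ω` and let `g` be a vector of elements of `K`.  The definition
says that the translate `g X` has no atypical subvarieties: all points `y = g x`, `x` a point of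
`X` with coordinates in an extension field `E` of `Ω`, satisfy `LocusBound Ω v m y`. -/
def TranslateTypical {n N : ℕ} {K : Type u} {Ω : Type w} [Field K] [Field Ω] [Algebra K Ω]
    (v : Fin N → Valuation K ℤᵐ⁰) (I : Ideal (MvPolynomial (Fin n) Ω)) (g : Fin n → K)
    (m : ℕ) : Prop :=
  ∀ (E : Type z) [Field E] [Algebra Ω E] [Algebra K E] [IsScalarTower K Ω E]
    (x y : Fin n → Eˣ), (∀ f ∈ I, aeval (fun t => (x t : E)) f = 0) →
    (∀ t, (y t : E) = algebraMap K E (g t) * x t) → LocusBound Ω v m y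

/-- The polynomial for translates. -/
theorem exists_generic_translate {K : Type u} {Ω : Type w} [Field K] [Field Ω] [Algebra K Ω]
    {n d N : ℕ} (hd : d < n) (hN : N = (d + 1) * (n - d - 1) + 1)
    (I : Ideal (MvPolynomial (Fin n) Ω))
    (hI : ringKrullDim (MvPolynomial (Fin n) Ω ⧸ I) ≤ d) (v : Fin N → Valuation K ℤᵐ⁰) :
    ∃ F : MvPolynomial (Fin N × Fin n) ℚ, F ≠ 0 ∧ ∀ g : Fin n → K,
      eval (fun jt => ((log (v jt.1 (g jt.2)) : ℤ) : ℚ)) F ≠ 0 →
        TranslateTypical.{u, w, z} v I g d := by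
  classical
  have hQ := fun S : {S : Finset (Fin n) // S.card = d + 1} =>
    exists_mem_of_krullDim_le I hI S.1 S.2
  choose Q hQ0 hQI using hQ
  have hl := fun j => exists_log (v j)
  choose l hl1 hl2 using hl
  have hz := fun j => exists_extend (Ω := Ω) (v j).valuationSubring (l j) (hl2 j)
    (fun i : Empty => i.elim) (by
      rw [algebraicIndependent_empty_type_iff]
      exact (algebraMap K Ω).injective)
  choose A z hz1 hz2 _ using hz
  let T : Type := (S : {S : Finset (Fin n) // S.card = d + 1}) →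
    {mm : {m // m ∈ (Q S).support} × {m // m ∈ (Q S).support} // mm.1 ≠ mm.2}
  let co : (S : {S : Finset (Fin n) // S.card = d + 1}) → {m // m ∈ (Q S).support} → Ωˣ :=
    fun S m => Units.mk0 ((Q S).coeff m.1) (mem_support_iff.mp m.2)
  let μ : T → {S : Finset (Fin n) // S.card = d + 1} → (Fin n → ℚ) := fun τ S t =>
    if h : t ∈ S.1 then (((τ S).1.1.1 ⟨t, h⟩ : ℕ) : ℚ) - (((τ S).1.2.1 ⟨t, h⟩ : ℕ) : ℚ) else 0
  let κ : Fin N → T → {S : Finset (Fin n) // S.card = d + 1} → ℚ := fun j τ S =>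
    z j (Additive.ofMul (co S (τ S).1.2)) - z j (Additive.ofMul (co S (τ S).1.1))
  have hμ : ∀ τ S, μ τ S ≠ 0 := by
    intro τ S h
    apply (τ S).2
    apply Subtype.ext
    ext ⟨t, ht⟩
    have h1 := congrFun h t
    simp only [μ, ht, dif_pos, Pi.zero_apply] at h1
    have h2 : (((τ S).1.1.1 ⟨t, ht⟩ : ℕ) : ℚ) = (((τ S).1.2.1 ⟨t, ht⟩ : ℕ) : ℚ) := by linarith
    exact_mod_cast h2
  have hsupp : ∀ τ, ∀ S : {S : Finset (Fin n) // S.card = d + 1}, ∀ t ∉ S.1, μ τ S t = 0 := by
    intro τ S t ht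
    simp [μ, ht]
  have hJ := fun j τ => exists_coords_affine (μ τ) (hμ τ) (hsupp τ) (κ j τ)
  choose J M b hJd hJM using hJ
  obtain ⟨F, hF0, hF⟩ := exists_poly_translate hd hN J hJd M b
  refine ⟨F, hF0, fun g hg => ?_⟩
  intro E _ _ _ _ x y hx hy' S h Λ hS hΛ hfin
  have hy : ∀ t, (y t : E) = algebraMap Ω E (algebraMap K Ω (g t)) * x t := by
    intro t
    rw [hy' t, IsScalarTower.algebraMap_apply K Ω E]
  by_contra hcon
  apply hg
  apply hF
  obtain ⟨Λ', hΛ', hzero⟩ := exists_forms (k := d + 1) y S hS Λ hΛ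
    (fun i => (hfin i).base) (by omega)
  have hg0 : ∀ t, algebraMap K Ω (g t) ≠ 0 := by
    intro t h
    have := hy t
    rw [h, map_zero, zero_mul] at this
    exact (y t).ne_zero this
  have hg0' : ∀ t, g t ≠ 0 := by
    intro t h
    exact hg0 t (by rw [h, map_zero])
  refine ⟨Λ', hΛ', fun j => ?_⟩
  obtain ⟨A2, z2, h21, h22, h23⟩ := exists_extend (A j) (z j) (hz2 j) _ hS
  have hK : ∀ (c : Kˣ) (w : Eˣ), (w : E) = algebraMap K E c →
      z2 (Additive.ofMul w) = ((log (v j (c : K)) : ℤ) : ℚ) := by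
    intro c w hw
    have hΩ : algebraMap K Ω (c : K) ≠ 0 := by
      intro h
      exact c.ne_zero ((map_eq_zero _).mp h)
    rw [h21 (Units.mk0 _ hΩ) w (by rw [hw, IsScalarTower.algebraMap_apply K Ω E]; rfl),
      hz1 j c (Units.mk0 _ hΩ) rfl, hl1]
  refine ⟨fun t => z2 (Additive.ofMul (x t)), ?_, ?_⟩
  · -- ties
    have htie : ∀ S : {S : Finset (Fin n) // S.card = d + 1},
        ∃ mm : {mm : {m // m ∈ (Q S).support} × {m // m ∈ (Q S).support} // mm.1 ≠ mm.2},
          z j (Additive.ofMul (co S mm.1.1)) +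
            ∑ t : {t // t ∈ S.1}, ((mm.1.1.1 t : ℕ) : ℚ) * z2 (Additive.ofMul (x t)) =
          z j (Additive.ofMul (co S mm.1.2)) +
            ∑ t : {t // t ∈ S.1}, ((mm.1.2.1 t : ℕ) : ℚ) * z2 (Additive.ofMul (x t)) := by
      intro S
      have hne : (Finset.univ : Finset {m // m ∈ (Q S).support}).Nonempty := by
        obtain ⟨m, hm⟩ := Finset.nonempty_iff_ne_empty.mpr
          (fun h => hQ0 S (MvPolynomial.support_eq_empty.mp h))
        exact ⟨⟨m, hm⟩, Finset.mem_univ _⟩
      let co' : {m // m ∈ (Q S).support} → Eˣ := fun m =>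
        Units.map (algebraMap Ω E : Ω →* E) (co S m)
      have hsum : ∑ m : {m // m ∈ (Q S).support},
          ((co' m * ∏ t : {t // t ∈ S.1}, x t ^ (m.1 t) : Eˣ) : E) = 0 := by
        have h1 := hx _ (hQI S)
        rw [aeval_rename, aeval_def, eval₂_eq', ← Finset.sum_coe_sort (Q S).support] at h1
        rw [← h1]
        refine Finset.sum_congr rfl fun m _ => ?_
        rw [Units.val_mul, Units.coe_prod]
        simp only [Units.val_pow_eq_pow_val, Function.comp]
        rfl
      obtain ⟨a, -, c, -, hac, hv⟩ := exists_tie A2 z2 h22 Finset.univ hne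
        (fun m : {m // m ∈ (Q S).support} => co' m * ∏ t : {t // t ∈ S.1}, x t ^ (m.1 t)) hsum
      refine ⟨⟨(a, c), hac⟩, ?_⟩
      have hval : ∀ m : {m // m ∈ (Q S).support}, z2 (Additive.ofMul
          (co' m * ∏ t : {t // t ∈ S.1}, x t ^ (m.1 t))) = z j (Additive.ofMul (co S m)) +
            ∑ t : {t // t ∈ S.1}, ((m.1 t : ℕ) : ℚ) * z2 (Additive.ofMul (x t)) := by
        intro m
        rw [ofMul_mul, map_add, ofMul_prod, map_sum, h21 (co S m) (co' m) rfl]
        congr 1
        refine Finset.sum_congr rfl fun t _ => ?_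
        rw [ofMul_pow, map_nsmul, nsmul_eq_mul]
      rw [hval, hval] at hv
      exact hv
    choose τ hτ using htie
    refine ⟨τ, hJM j τ _ fun S => ?_⟩
    have h1 := hτ S
    have h2 : ∑ t, μ τ S t * z2 (Additive.ofMul (x t)) = ∑ t : {t // t ∈ S.1},
        ((((τ S).1.1.1 t : ℕ) : ℚ) - (((τ S).1.2.1 t : ℕ) : ℚ)) * z2 (Additive.ofMul (x t)) := by
      have h3 : ∑ t, μ τ S t * z2 (Additive.ofMul (x t)) =
          ∑ t ∈ S.1, μ τ S t * z2 (Additive.ofMul (x t)) := by
        refine (Finset.sum_subset (Finset.subset_univ S.1) fun t _ ht => ?_).symm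
        rw [hsupp τ S t ht, zero_mul]
      rw [h3, ← Finset.sum_coe_sort S.1]
      refine Finset.sum_congr rfl fun t _ => ?_
      have : μ τ S t.1 = (((τ S).1.1.1 t : ℕ) : ℚ) - (((τ S).1.2.1 t : ℕ) : ℚ) := by
        simp [μ]
      rw [this]
    rw [h2]
    simp only [sub_mul, Finset.sum_sub_distrib, κ]
    linarith
  · intro k
    have h1 : ∀ t, z2 (Additive.ofMul (y t)) =
        ((log (v j (g t)) : ℤ) : ℚ) + z2 (Additive.ofMul (x t)) := by
      intro t
      have hE : algebraMap Ω E (algebraMap K Ω (g t)) ≠ 0 := by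
        intro h
        exact hg0 t ((map_eq_zero _).mp h)
      have h2 : y t = Units.mk0 _ hE * x t := by
        ext
        simpa using hy t
      rw [h2, ofMul_mul, map_add, h21 (Units.mk0 _ (hg0 t)) (Units.mk0 _ hE) rfl,
        hz1 j (Units.mk0 _ (hg0' t)) (Units.mk0 _ (hg0 t)) rfl, hl1]
      rfl
    have h3 := hzero z2 (fun t ht => h23 ⟨t, ht⟩ (y t) rfl) (fun i => (hfin i).zero j z2 hK) k
    rw [← h3]
    refine Finset.sum_congr rfl fun t _ => ?_
    rw [h1 t]

end Pool.Agent.Lib.MP_a325a5_ag
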