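import Pool.Agent.Lib.MP_a325a5_ag.Affine

/-! Uniform counting theorem for translates: homogeneous relations that depend only on the
linear parts of the affine spaces. -/

namespace Pool.Agent.Lib.MP_a325a5_ag

open MvPolynomial

/-- An affine space on which each family of `d + 1` coordinates is dependent is parametrised by at
most `d` of the coordinates; the coordinates and the linear part depend only on the linear forms. -/
theorem exists_coords_affine_uniform {n d : ℕ}
    (μ : {S : Finset (Fin n) // S.card = d + 1} → (Fin n → ℚ))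
    (hμ : ∀ S, μ S ≠ 0)
    (hsupp : ∀ S : {S : Finset (Fin n) // S.card = d + 1}, ∀ t ∉ S.1, μ S t = 0) :
    ∃ (J : Finset (Fin n)) (M : Fin n → Fin n → ℚ), J.card ≤ d ∧
      ∀ κ : {S : Finset (Fin n) // S.card = d + 1} → ℚ, ∃ b : Fin n → ℚ, (κ = 0 → b = 0) ∧
        ∀ z : Fin n → ℚ, (∀ S, ∑ t, μ S t * z t = κ S) →
          ∀ t, z t = b t + ∑ a ∈ J, M t a * z a := by
  classical
  let L : Submodule ℚ (Fin n → ℚ) :=
    { carrier := {z | ∀ S, ∑ t, μ S t * z t = 0}
      add_mem' := by
        intro a b ha hb S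
        have := ha S
        have := hb S
        simp only [Pi.add_apply, mul_add, Finset.sum_add_distrib]
        simp_all
      zero_mem' := by intro S; simp
      smul_mem' := by
        intro c a ha S
        have h1 := ha S
        have : ∑ t, μ S t * (c • a) t = c * ∑ t, μ S t * a t := by
          rw [Finset.mul_sum]
          refine Finset.sum_congr rfl fun t _ => ?_
          simp only [Pi.smul_apply, smul_eq_mul]
          ring
        rw [this, h1, mul_zero] }
  let w : Fin n → Module.Dual ℚ L := fun t => (LinearMap.proj t).comp L.subtype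
  obtain ⟨s, hli, hs⟩ := exists_maximal_linearIndepOn ℚ w
  let J : Finset (Fin n) := s.toFinset
  have hJs : (J : Set (Fin n)) = s := by simp [J]
  have hmem : ∀ t, w t ∈ Submodule.span ℚ (w '' (J : Set (Fin n))) := by
    intro t
    rw [hJs]
    by_cases ht : t ∈ s
    · exact Submodule.subset_span ⟨t, ht, rfl⟩
    · obtain ⟨a, ha, ha'⟩ := hs t ht
      have := Submodule.smul_mem _ a⁻¹ ha'
      rwa [smul_smul, inv_mul_cancel₀ ha, one_smul] at this
  have hcoef : ∀ t, ∃ c : Fin n → ℚ, w t = ∑ a ∈ J, c a • w a := by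
    intro t
    obtain ⟨c, hc⟩ := (Submodule.mem_span_image_finset_iff_exists_fun ℚ).mp (hmem t)
    refine ⟨fun a => if h : a ∈ J then c ⟨a, h⟩ else 0, ?_⟩
    rw [← hc, ← Finset.sum_coe_sort J]
    refine Finset.sum_congr rfl fun a _ => ?_
    simp
  choose c hc using hcoef
  refine ⟨J, c, ?_, ?_⟩
  · by_contra hcard
    push Not at hcard
    obtain ⟨S, hSJ, hS⟩ := Finset.exists_subset_card_eq (Nat.succ_le_of_lt hcard)
    have hrel : ∑ t ∈ S, μ ⟨S, hS⟩ t • w t = 0 := by
      ext z
      have h1 := z.2 ⟨S, hS⟩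
      simp only [LinearMap.coe_sum, Finset.sum_apply, LinearMap.smul_apply, smul_eq_mul,
        LinearMap.zero_apply]
      have h2 : ∑ t, μ ⟨S, hS⟩ t * (z : Fin n → ℚ) t = ∑ t ∈ S, μ ⟨S, hS⟩ t * (z : Fin n → ℚ) t := by
        refine (Finset.sum_subset (Finset.subset_univ S) fun t _ ht => ?_).symm
        rw [hsupp ⟨S, hS⟩ t ht, zero_mul]
      rw [h2] at h1
      exact h1
    have hliS : LinearIndepOn ℚ w (S : Set (Fin n)) := hli.mono (by
      intro t ht
      rw [← hJs]
      exact hSJ ht)
    have hzero := linearIndepOn_finset_iff.mp hliS (μ ⟨S, hS⟩) hrel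
    apply hμ ⟨S, hS⟩
    funext t
    by_cases ht : t ∈ S
    · exact hzero t ht
    · exact hsupp ⟨S, hS⟩ t ht
  · intro κ
    by_cases hne : ∃ z0 : Fin n → ℚ, ∀ S, ∑ t, μ S t * z0 t = κ S
    swap
    · exact ⟨fun _ => 0, fun _ => rfl, fun z hz => (hne ⟨z, hz⟩).elim⟩
    obtain ⟨z0, hz0, hz00⟩ : ∃ z0 : Fin n → ℚ, (∀ S, ∑ t, μ S t * z0 t = κ S) ∧
        (κ = 0 → z0 = 0) := by
      by_cases hκ : κ = 0
      · exact ⟨0, fun S => by simp [hκ], fun _ => rfl⟩
      · obtain ⟨z0, hz0⟩ := hne
        exact ⟨z0, hz0, fun h => absurd h hκ⟩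
    refine ⟨fun t => z0 t - ∑ a ∈ J, c t a * z0 a, fun h => ?_, fun z hz t => ?_⟩
    · funext t
      rw [hz00 h]
      simp
    have hzL : (fun t => z t - z0 t) ∈ L := by
      intro S
      have h1 := hz S
      have h2 := hz0 S
      simp only [mul_sub, Finset.sum_sub_distrib, h1, h2, sub_self]
    have := DFunLike.congr_fun (hc t) ⟨_, hzL⟩
    simp only [LinearMap.coe_sum, Finset.sum_apply, LinearMap.smul_apply, smul_eq_mul] at this
    have h3 : z t - z0 t = ∑ a ∈ J, c t a * (z a - z0 a) := this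
    have h4 : ∑ a ∈ J, c t a * (z a - z0 a) = ∑ a ∈ J, c t a * z a - ∑ a ∈ J, c t a * z0 a := by
      rw [← Finset.sum_sub_distrib]
      exact Finset.sum_congr rfl fun a _ => by ring
    rw [h4] at h3
    linarith

/-- Scaling the argument of a homogeneous polynomial. -/
theorem eval_scale {σ : Type} (G : MvPolynomial σ ℚ) (k : ℕ) (hG : G.IsHomogeneous k)
    (c : ℚ) (W : σ → ℚ) : eval (fun i => c * W i) G = c ^ k * eval W G := by
  classical
  rw [eval_eq, eval_eq, Finset.mul_sum]
  refine Finset.sum_congr rfl fun m hm => ?_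
  have h1 : ∑ i ∈ m.support, m i = k := by
    have := hG (mem_support_iff.mp hm)
    rw [Finsupp.weight_apply] at this
    simpa [Finsupp.sum] using this
  simp only [mul_pow, Finset.prod_mul_distrib]
  rw [Finset.prod_pow_eq_pow_sum, h1]
  ring

/-- A nonzero polynomial vanishing on a cone has a nonzero homogeneous component vanishing there. -/
theorem exists_homogeneous_of_cone {σ : Type} [Finite σ] (B : Set (σ → ℚ))
    (hB : ∀ W ∈ B, ∀ c : ℚ, (fun i => c * W i) ∈ B) (F : MvPolynomial σ ℚ) (hF : F ≠ 0)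
    (hFB : ∀ W ∈ B, eval W F = 0) :
    ∃ (G : MvPolynomial σ ℚ) (k : ℕ), G ≠ 0 ∧ G.IsHomogeneous k ∧ ∀ W ∈ B, eval W G = 0 := by
  classical
  obtain ⟨k, hk⟩ : ∃ k, homogeneousComponent k F ≠ 0 := by
    by_contra h
    push Not at h
    apply hF
    rw [← sum_homogeneousComponent F]
    exact Finset.sum_eq_zero fun i _ => h i
  refine ⟨homogeneousComponent k F, k, hk, homogeneousComponent_isHomogeneous k F, ?_⟩
  intro W hW
  -- the polynomial in one variable
  let p : Polynomial ℚ := ∑ i ∈ Finset.range (F.totalDegree + 1),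
    Polynomial.C (eval W (homogeneousComponent i F)) * Polynomial.X ^ i
  have hp : ∀ c : ℚ, p.eval c = 0 := by
    intro c
    have h1 := hFB _ (hB W hW c)
    rw [← sum_homogeneousComponent F, map_sum] at h1
    rw [Polynomial.eval_finsetSum, ← h1]
    refine Finset.sum_congr rfl fun i _ => ?_
    rw [Polynomial.eval_mul, Polynomial.eval_C, Polynomial.eval_pow, Polynomial.eval_X]
    rw [eval_scale _ i (homogeneousComponent_isHomogeneous i F)]
    ring
  have hp0 : p = 0 := Polynomial.funext fun c => by rw [hp c, Polynomial.eval_zero]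
  by_cases hkd : k ∈ Finset.range (F.totalDegree + 1)
  · have h3 : p.coeff k = eval W (homogeneousComponent k F) := by
      simp only [p, Polynomial.finsetSum_coeff, Polynomial.coeff_C_mul, Polynomial.coeff_X_pow]
      rw [Finset.sum_eq_single k]
      · simp
      · intro i _ hi
        rw [if_neg (Ne.symm hi), mul_zero]
      · intro h
        exact absurd hkd h
    rw [← h3, hp0, Polynomial.coeff_zero]
  · exact absurd (homogeneousComponent_eq_zero k F (by
      rw [Finset.mem_range] at hkd
      omega)) hk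

/-- Restriction of a homogeneous polynomial to a line whose direction is not a zero. -/
theorem line_zeros {σ : Type} (G : MvPolynomial σ ℚ) (k : ℕ) (hG : G.IsHomogeneous k)
    (w : σ → ℚ) (hw : eval w G ≠ 0) (W : σ → ℚ) :
    ∃ R : Finset ℤ, R.card ≤ k ∧ ∀ m : ℤ, eval (fun i => W i + m * w i) G = 0 → m ∈ R := by
  classical
  let p : Polynomial ℚ := aeval (fun i => Polynomial.C (W i) + Polynomial.C (w i) * Polynomial.X) G
  have hp : ∀ c : ℚ, p.eval c = eval (fun i => W i + c * w i) G := by
    intro c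
    have h1 : (Polynomial.evalRingHom c).comp
        (aeval (fun i => Polynomial.C (W i) + Polynomial.C (w i) * Polynomial.X) :
          MvPolynomial σ ℚ →ₐ[ℚ] Polynomial ℚ).toRingHom = eval (fun i => W i + c * w i) := by
      apply MvPolynomial.ringHom_ext
      · intro r
        simp
      · intro i
        simp only [RingHom.comp_apply, AlgHom.toRingHom_eq_coe, RingHom.coe_coe, aeval_X, eval_X,
          Polynomial.coe_evalRingHom, Polynomial.eval_add, Polynomial.eval_C, Polynomial.eval_mul,
          Polynomial.eval_X]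
        ring
    exact DFunLike.congr_fun h1 G
  have hdeg : p.natDegree ≤ k := by
    have h1 : p = ∑ m ∈ G.support, Polynomial.C (G.coeff m) *
        ∏ i ∈ m.support, (Polynomial.C (W i) + Polynomial.C (w i) * Polynomial.X) ^ m i := by
      simp only [p, aeval_def, eval₂_eq]
      rfl
    rw [h1]
    refine Polynomial.natDegree_sum_le_of_forall_le _ _ fun m hm => ?_
    have h2 : ∑ i ∈ m.support, m i = k := by
      have := hG (mem_support_iff.mp hm)
      rw [Finsupp.weight_apply] at this
      simpa [Finsupp.sum] using this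
    refine (Polynomial.natDegree_C_mul_le _ _).trans ?_
    refine (Polynomial.natDegree_prod_le _ _).trans ?_
    rw [← h2]
    refine Finset.sum_le_sum fun i _ => ?_
    refine (Polynomial.natDegree_pow_le).trans ?_
    have h3 : (Polynomial.C (W i) + Polynomial.C (w i) * Polynomial.X).natDegree ≤ 1 := by
      compute_degree
    calc m i * (Polynomial.C (W i) + Polynomial.C (w i) * Polynomial.X).natDegree
        ≤ m i * 1 := Nat.mul_le_mul_left _ h3
      _ = m i := mul_one _
  have hp0 : p ≠ 0 := by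
    intro h0
    -- the reversed polynomial
    let q : Polynomial ℚ :=
      aeval (fun i => Polynomial.C (w i) + Polynomial.C (W i) * Polynomial.X) G
    have hq : ∀ c : ℚ, q.eval c = eval (fun i => w i + c * W i) G := by
      intro c
      have h1 : (Polynomial.evalRingHom c).comp
          (aeval (fun i => Polynomial.C (w i) + Polynomial.C (W i) * Polynomial.X) :
            MvPolynomial σ ℚ →ₐ[ℚ] Polynomial ℚ).toRingHom = eval (fun i => w i + c * W i) := by
        apply MvPolynomial.ringHom_ext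
        · intro r
          simp
        · intro i
          simp only [RingHom.comp_apply, AlgHom.toRingHom_eq_coe, RingHom.coe_coe, aeval_X, eval_X,
            Polynomial.coe_evalRingHom, Polynomial.eval_add, Polynomial.eval_C, Polynomial.eval_mul,
            Polynomial.eval_X]
          ring
      exact DFunLike.congr_fun h1 G
    have hq1 : ∀ c : ℚ, c ≠ 0 → q.eval c = 0 := by
      intro c hc
      have h1 : (fun i => w i + c * W i) = fun i => c * (W i + c⁻¹ * w i) := by
        funext i
        field_simp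
        ring
      rw [hq, h1, eval_scale G k hG, ← hp, h0, Polynomial.eval_zero, mul_zero]
    have hq2 : q * Polynomial.X = 0 := by
      apply Polynomial.funext
      intro c
      by_cases hc : c = 0
      · simp [hc]
      · simp [hq1 c hc]
    have hq3 : q = 0 := (mul_eq_zero.mp hq2).resolve_right Polynomial.X_ne_zero
    apply hw
    have h4 := hq 0
    rw [hq3, Polynomial.eval_zero] at h4
    simpa using h4.symm
  refine ⟨p.roots.toFinset.preimage (fun m : ℤ => (m : ℚ)) (Int.cast_injective.injOn), ?_, ?_⟩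
  · calc _ ≤ p.roots.toFinset.card := Finset.card_le_card_of_injOn (fun m : ℤ => (m : ℚ))
          (fun m hm => Finset.mem_preimage.mp hm) Int.cast_injective.injOn
      _ ≤ Multiset.card p.roots := Multiset.toFinset_card_le _
      _ ≤ p.natDegree := Polynomial.card_roots' p
      _ ≤ k := hdeg
  · intro m hm
    rw [Finset.mem_preimage, Multiset.mem_toFinset, Polynomial.mem_roots hp0,
      Polynomial.IsRoot.def, hp]
    exact hm

/-- Substituting polynomials of degree at most one does not raise the degree. -/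
theorem totalDegree_aeval_le {σ τ : Type} (g : σ → MvPolynomial τ ℚ)
    (hg : ∀ i, (g i).totalDegree ≤ 1) (G : MvPolynomial σ ℚ) :
    (aeval g G).totalDegree ≤ G.totalDegree := by
  classical
  rw [aeval_def, eval₂_eq]
  refine totalDegree_finsetSum_le fun m hm => ?_
  refine (totalDegree_mul _ _).trans ?_
  rw [show (algebraMap ℚ (MvPolynomial τ ℚ)) (coeff m G) = C (coeff m G) from rfl,
    totalDegree_C, zero_add]
  refine (totalDegree_finsetProd _ _).trans ?_
  refine le_trans ?_ (le_totalDegree hm)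
  refine Finset.sum_le_sum fun i _ => ?_
  refine (totalDegree_pow _ _).trans ?_
  calc m i * (g i).totalDegree ≤ m i * 1 := Nat.mul_le_mul_left _ (hg i)
    _ = m i := mul_one _

/-- Linearly independent integer vectors have a rational right inverse. -/
theorem exists_right_inv {N s : ℕ} (a : Fin N → Fin s → ℤ) (ha : LinearIndependent ℤ a) :
    ∃ B : Fin s → Fin N → ℚ, ∀ j k, ∑ i, ((a j i : ℤ) : ℚ) * B i k =
      if j = k then 1 else 0 := by
  classical
  have hli : LinearIndependent ℚ (fun j i => ((a j i : ℤ) : ℚ)) := by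
    rw [← LinearIndependent.iff_fractionRing ℤ ℚ]
    have hinj : Function.Injective
        (LinearMap.pi (fun t : Fin s => (Algebra.linearMap ℤ ℚ).comp (LinearMap.proj t)) :
          (Fin s → ℤ) →ₗ[ℤ] (Fin s → ℚ)) := by
      intro a b hab
      ext t
      have := congrFun hab t
      simpa using this
    exact ha.map' _ (LinearMap.ker_eq_bot.mpr hinj)
  let A : Matrix (Fin N) (Fin s) ℚ := fun j i => ((a j i : ℤ) : ℚ)
  have hA : LinearIndependent ℚ A.row := hli
  have hrank : A.rank = N := by
    have := hA.rank_matrix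
    simpa using this
  have hsurj : Function.Surjective A.mulVec := by
    have h1 : LinearMap.range A.mulVecLin = ⊤ := by
      apply Submodule.eq_top_of_finrank_eq
      rw [Module.finrank_fintype_fun_eq_card, Fintype.card_fin]
      exact hrank
    intro x
    obtain ⟨y, hy⟩ := LinearMap.range_eq_top.mp h1 x
    exact ⟨y, hy⟩
  obtain ⟨B, hB⟩ := Matrix.mulVec_surjective_iff_exists_right_inverse.mp hsurj
  refine ⟨B, fun j k => ?_⟩
  have := congrFun (congrFun hB j) k
  rw [Matrix.mul_apply, Matrix.one_apply] at this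
  exact this

/-- Schwartz-Zippel for a translate of a nonzero polynomial of degree at most `k`, in linear forms
with linearly independent coefficient vectors. -/
theorem box_zeros {N s : ℕ} {τ : Type} [Fintype τ] [DecidableEq τ]
    (a : Fin N → Fin s → ℤ) (ha : LinearIndependent ℤ a)
    (G : MvPolynomial (Fin N × τ) ℚ) (hG0 : G ≠ 0) (k : ℕ) (hG : G.totalDegree ≤ k)
    (W : Fin N × τ → ℚ) (T : ℕ) :
    ((Fintype.piFinset fun _ : Fin s × τ => Finset.Icc (-(T : ℤ)) T).filter fun e =>
        eval (fun jt => W jt + ∑ i, ((a jt.1 i : ℤ) : ℚ) * ((e (i, jt.2) : ℤ) : ℚ)) G = 0).card *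
          (2 * T + 1) ≤
      k * (2 * T + 1) ^ (s * Fintype.card τ) := by
  classical
  let g : Fin N × τ → MvPolynomial (Fin s × τ) ℚ := fun jt =>
    C (W jt) + ∑ i, C ((a jt.1 i : ℤ) : ℚ) * X (i, jt.2)
  let F : MvPolynomial (Fin s × τ) ℚ := aeval g G
  have heval : ∀ x : Fin s × τ → ℚ, eval x F =
      eval (fun jt => W jt + ∑ i, ((a jt.1 i : ℤ) : ℚ) * x (i, jt.2)) G := by
    intro x
    show eval x (aeval g G) = _
    rw [eval_aeval_eq]
    congr 2
    funext jt
    simp [g]
  have hF0 : F ≠ 0 := by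
    intro h0
    apply hG0
    apply MvPolynomial.funext
    intro V
    obtain ⟨B, hB⟩ := exists_right_inv a ha
    have h1 := heval (fun it => ∑ k, B it.1 k * (V (k, it.2) - W (k, it.2)))
    rw [h0, map_zero] at h1
    rw [map_zero]
    have h2 : (fun jt : Fin N × τ => W jt + ∑ i, ((a jt.1 i : ℤ) : ℚ) *
        (fun it : Fin s × τ => ∑ k, B it.1 k * (V (k, it.2) - W (k, it.2))) (i, jt.2)) = V := by
      funext ⟨j, t⟩
      have h3 : ∑ i, ((a j i : ℤ) : ℚ) * ∑ k, B i k * (V (k, t) - W (k, t)) =
          V (j, t) - W (j, t) := by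
        simp only [Finset.mul_sum]
        rw [Finset.sum_comm]
        have h4 : ∀ k, ∑ i, ((a j i : ℤ) : ℚ) * (B i k * (V (k, t) - W (k, t))) =
            (if j = k then 1 else 0) * (V (k, t) - W (k, t)) := by
          intro k
          rw [← hB j k, Finset.sum_mul]
          exact Finset.sum_congr rfl fun i _ => by ring
        simp only [h4]
        simp
      show W (j, t) + ∑ i, ((a j i : ℤ) : ℚ) * ∑ k, B i k * (V (k, t) - W (k, t)) = V (j, t)
      rw [h3]
      ring
    rw [h2] at h1
    exact h1.symm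
  have hFk : F.totalDegree ≤ k := by
    refine (totalDegree_aeval_le g (fun jt => ?_) G).trans hG
    refine (totalDegree_add _ _).trans ?_
    rw [totalDegree_C]
    refine max_le (Nat.zero_le _) ?_
    refine totalDegree_finsetSum_le fun i _ => ?_
    refine (totalDegree_mul _ _).trans ?_
    rw [totalDegree_C, totalDegree_X, zero_add]
  let κ : (Fin s × τ) ≃ Fin (Fintype.card (Fin s × τ)) := Fintype.equivFin _
  let F2 : MvPolynomial (Fin (Fintype.card (Fin s × τ))) ℚ := rename κ F
  have hF2 : F2 ≠ 0 := by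
    intro h
    apply hF0
    exact rename_injective (R := ℚ) κ κ.injective (by rw [map_zero]; exact h)
  have hF2k : F2.totalDegree ≤ k := (totalDegree_rename_le _ _).trans hFk
  let S : Finset ℚ := (Finset.Icc (-(T : ℤ)) T).map ⟨fun z : ℤ => (z : ℚ), Int.cast_injective⟩
  have hS : S.card = 2 * T + 1 := by
    rw [Finset.card_map, Int.card_Icc]
    omega
  have hSZ := schwartz_zippel_totalDegree hF2 S
  have hcard : ((Fintype.piFinset fun _ : Fin s × τ => Finset.Icc (-(T : ℤ)) T).filter fun e =>
        eval (fun jt => W jt + ∑ i, ((a jt.1 i : ℤ) : ℚ) * ((e (i, jt.2) : ℤ) : ℚ)) G = 0).card ≤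
      ((Fintype.piFinset fun _ : Fin (Fintype.card (Fin s × τ)) => S).filter fun f =>
        eval f F2 = 0).card := by
    refine Finset.card_le_card_of_injOn (fun e => fun i => ((e (κ.symm i) : ℤ) : ℚ)) ?_ ?_
    · intro e he
      have he' := Finset.mem_filter.mp he
      refine Finset.mem_filter.mpr ⟨?_, ?_⟩
      · rw [Fintype.mem_piFinset]
        intro i
        have := Fintype.mem_piFinset.mp he'.1 (κ.symm i)
        exact Finset.mem_map.mpr ⟨_, this, rfl⟩
      · rw [← he'.2, ← heval (fun it => ((e it : ℤ) : ℚ))]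
        show eval _ (rename κ F) = _
        rw [eval_rename]
        congr 2
        funext i
        simp
    · intro e _ e' _ h
      funext i
      have := congrFun h (κ i)
      simpa using this
  have hpos : (0 : ℚ≥0) < ((2 * T + 1 : ℕ) : ℚ≥0) := by
    exact_mod_cast Nat.succ_pos _
  rw [hS] at hSZ
  rw [div_le_div_iff₀ (pow_pos hpos _) hpos] at hSZ
  have h6 : ((Fintype.piFinset fun _ : Fin (Fintype.card (Fin s × τ)) => S).filter fun f =>
        eval f F2 = 0).card * (2 * T + 1) ≤
      F2.totalDegree * (2 * T + 1) ^ (Fintype.card (Fin s × τ)) := by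
    exact_mod_cast hSZ
  have h7 : Fintype.card (Fin s × τ) = s * Fintype.card τ := by
    rw [Fintype.card_prod, Fintype.card_fin]
  calc _ ≤ ((Fintype.piFinset fun _ : Fin (Fintype.card (Fin s × τ)) => S).filter fun f =>
        eval f F2 = 0).card * (2 * T + 1) := Nat.mul_le_mul_right _ hcard
    _ ≤ F2.totalDegree * (2 * T + 1) ^ (Fintype.card (Fin s × τ)) := h6
    _ ≤ k * (2 * T + 1) ^ (Fintype.card (Fin s × τ)) := Nat.mul_le_mul_right _ hF2k
    _ = k * (2 * T + 1) ^ (s * Fintype.card τ) := by rw [h7]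

/-- Uniform counting theorem for translates.  Given finitely many linear parts `(J τ, M τ)` with
at most `d` free coordinates, finitely many nonzero homogeneous polynomials, depending only on the
linear parts, control the translates of all families of affine spaces with these linear parts. -/
theorem exists_poly_translate_uniform {n d N : ℕ} (hd : d < n)
    (hN : N = (d + 1) * (n - d - 1) + 1) {T : Type} [Finite T]
    (J : T → Finset (Fin n)) (hJ : ∀ τ, (J τ).card ≤ d) (M : T → Fin n → Fin n → ℚ) :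
    ∃ (Δ : Type) (_ : Fintype Δ) (ty : Δ → Fin N → T) (G : Δ → MvPolynomial (Fin N × Fin n) ℚ)
      (k : Δ → ℕ), (∀ δ, G δ ≠ 0) ∧ (∀ δ, (G δ).IsHomogeneous (k δ)) ∧
      ∀ (b : Fin N → T → Fin n → ℚ) (W : Fin N × Fin n → ℚ),
        (∃ Λ : Fin (d + 1) → (Fin n → ℤ), LinearIndependent ℤ Λ ∧
          ∀ j, ∃ z : Fin n → ℚ, (∃ τ, ∀ t, z t = b j τ t + ∑ a ∈ J τ, M τ t a * z a) ∧
            ∀ k, ∑ t, (Λ k t : ℚ) * (W (j, t) + z t) = 0) →
        ∃ δ, eval (fun jt => W jt + b jt.1 (ty δ jt.1) jt.2) (G δ) = 0 := by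
  classical
  let Δ : Type := {I : Finset (Fin n) // I.card = n - (d + 1)} × (Fin N → T)
  let κ : Δ → Type := fun δ =>
    ({t : Fin n // t ∉ δ.1.1} × {a : Fin n // a ∈ δ.1.1}) ⊕
      ((Fin N × {a : Fin n // a ∈ δ.1.1}) ⊕ (Σ j : Fin N, {a : Fin n // a ∈ J (δ.2 j)}))
  let Z : (δ : Δ) → Fin N → Fin n → MvPolynomial (κ δ) ℚ := fun δ j t =>
    if h : t ∈ δ.1.1 then X (Sum.inr (Sum.inl (j, ⟨t, h⟩))) else
      ∑ a : {a : Fin n // a ∈ δ.1.1}, X (Sum.inl (⟨t, h⟩, a)) * X (Sum.inr (Sum.inl (j, a)))
  let Y : (δ : Δ) → (j : Fin N) → {a : Fin n // a ∈ J (δ.2 j)} → MvPolynomial (κ δ) ℚ :=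
    fun δ j a => X (Sum.inr (Sum.inr
      (Sigma.mk (β := fun j => {a : Fin n // a ∈ J (δ.2 j)}) j a)))
  let g : (δ : Δ) → Fin N × Fin n → MvPolynomial (κ δ) ℚ := fun δ jt =>
    Z δ jt.1 jt.2 -
      ∑ a : {a : Fin n // a ∈ J (δ.2 jt.1)}, C (M (δ.2 jt.1) jt.2 a.1) * Y δ jt.1 a
  have hrel : ∀ δ : Δ, ∃ F : MvPolynomial (Fin N × Fin n) ℚ, F ≠ 0 ∧ aeval (g δ) F = 0 := by
    intro δ
    apply exists_relation
    have h1 : Fintype.card (κ δ) = (n - (n - (d + 1))) * (n - (d + 1)) + (N * (n - (d + 1)) +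
        ∑ j : Fin N, (J (δ.2 j)).card) := by
      simp only [κ, Fintype.card_sum, Fintype.card_prod, Fintype.card_fin, Fintype.card_sigma,
        Fintype.card_coe, δ.1.2]
      congr 2
      rw [Fintype.card_subtype_compl, Fintype.card_fin, Fintype.card_coe, δ.1.2]
    have h2 : ∑ j : Fin N, (J (δ.2 j)).card ≤ N * d := by
      calc ∑ j : Fin N, (J (δ.2 j)).card ≤ ∑ _j : Fin N, d :=
            Finset.sum_le_sum fun j _ => hJ _
        _ = N * d := by simp
    rw [h1, Fintype.card_prod, Fintype.card_fin, Fintype.card_fin]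
    generalize hc : ∑ j : Fin N, (J (δ.2 j)).card = c at h2
    obtain ⟨e, he⟩ : ∃ e, n = d + 1 + e := ⟨n - (d + 1), by omega⟩
    have h3 : n - (d + 1) = e := by omega
    have h4 : n - e = d + 1 := by omega
    have h5 : n - d - 1 = e := by omega
    have h8 : (n - (n - (d + 1))) * (n - (d + 1)) + (N * (n - (d + 1)) + c) =
        (d + 1) * e + (N * e + c) := by
      rw [h3, h4]
    rw [h8]
    have h6 : N = (d + 1) * e + 1 := by rw [hN, h5]
    have h7 : N * n = N * d + N + N * e := by rw [he]; ring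
    rw [h7]
    omega
  -- the cone of bad vectors
  let B : Δ → Set (Fin N × Fin n → ℚ) := fun δ => {V | ∃ (P : Fin n → Fin n → ℚ)
    (x : Fin N → Fin n → ℚ) (z : Fin N → Fin n → ℚ),
      (∀ j, ∀ t ∉ δ.1.1, x j t = ∑ a ∈ δ.1.1, P a t * x j a) ∧
      ∀ jt, V jt = x jt.1 jt.2 - ∑ a ∈ J (δ.2 jt.1), M (δ.2 jt.1) jt.2 a * z jt.1 a}
  have hB0 : ∀ δ, ∀ V ∈ B δ, ∀ F : MvPolynomial (Fin N × Fin n) ℚ, aeval (g δ) F = 0 →
      eval V F = 0 := by
    rintro δ V ⟨P, x, z, hx, hV⟩ F hF
    let pt : κ δ → ℚ := Sum.elim (fun ta => P ta.2.1 ta.1.1)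
      (Sum.elim (fun ja => x ja.1 ja.2.1) (fun ja => z ja.1 ja.2.1))
    have hZ : ∀ j t, eval pt (Z δ j t) = x j t := by
      intro j t
      by_cases h : t ∈ δ.1.1
      · simp [Z, h, pt]
      · have h1 := hx j t h
        have h2 : eval pt (Z δ j t) = ∑ a : {a : Fin n // a ∈ δ.1.1}, P a.1 t * x j a.1 := by
          simp only [Z, h, dif_neg, not_false_iff, map_sum, map_mul, eval_X, pt, Sum.elim_inl,
            Sum.elim_inr]
        rw [h2, h1, ← Finset.sum_coe_sort δ.1.1]
    have hg : ∀ jt : Fin N × Fin n, eval pt (g δ jt) = V jt := by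
      rintro ⟨j, t⟩
      have h1 := hV (j, t)
      rw [← Finset.sum_coe_sort (J (δ.2 (j, t).1))] at h1
      have h2 : ∀ a, eval pt (Y δ j a) = z j a.1 := by
        intro a
        simp [Y, pt]
      simp only [g, map_sub, map_sum, map_mul, eval_C, h2, hZ]
      exact h1.symm
    have h1 : eval V F = eval (fun jt => eval pt (g δ jt)) F := by
      congr 2
      funext jt
      exact (hg jt).symm
    rw [h1, ← eval_aeval_eq, hF, map_zero]
  have hcone : ∀ δ, ∀ V ∈ B δ, ∀ c : ℚ, (fun i => c * V i) ∈ B δ := by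
    rintro δ V ⟨P, x, z, hx, hV⟩ c
    refine ⟨P, fun j t => c * x j t, fun j t => c * z j t, fun j t ht => ?_, fun jt => ?_⟩
    · show c * x j t = _
      rw [hx j t ht, Finset.mul_sum]
      exact Finset.sum_congr rfl fun a _ => by ring
    · show c * V jt = _
      rw [hV jt, mul_sub, Finset.mul_sum]
      congr 1
      exact Finset.sum_congr rfl fun a _ => by ring
  have hex : ∀ δ, ∃ (G : MvPolynomial (Fin N × Fin n) ℚ) (k : ℕ), G ≠ 0 ∧ G.IsHomogeneous k ∧
      ∀ V ∈ B δ, eval V G = 0 := by
    intro δ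
    obtain ⟨F, hF0, hF⟩ := hrel δ
    exact exists_homogeneous_of_cone (B δ) (hcone δ) F hF0 fun V hV => hB0 δ V hV F hF
  choose G k hG0 hGk hGB using hex
  have : Fintype Δ := Fintype.ofFinite Δ
  refine ⟨Δ, this, fun δ => δ.2, G, k, hG0, hGk, ?_⟩
  rintro b W ⟨Λ, hΛ, hz⟩
  choose z hz1 hz2 using hz
  choose τ hτ using hz1
  obtain ⟨I, P, hI, hP⟩ := exists_coords Λ hΛ
  refine ⟨⟨⟨I, hI⟩, τ⟩, hGB _ _ ⟨P, fun j t => W (j, t) + z j t, z, fun j t ht => ?_,
    fun jt => ?_⟩⟩
  · exact hP _ (hz2 j) t ht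
  · obtain ⟨j, t⟩ := jt
    have h1 := hτ j t
    show W (j, t) + b j (τ j) t = W (j, t) + z j t - ∑ a ∈ J (τ j), M (τ j) t a * z j a
    linarith

end Pool.Agent.Lib.MP_a325a5_ag
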