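import Pool.Agent.Lib.MP_a325a5_ag.Translate
import Pool.Agent.Lib.MP_a325a5_ag.UniCount

/-! Uniform statement for translates of closed subsets of the torus. -/

namespace Pool.Agent.Lib.MP_a325a5_ag

open MvPolynomial WithZero

universe u w z

/-- The ideal `I` contains, for every set `S` of `d + 1` coordinates, a nonzero polynomial of total
degree at most `δ` in the variables of `S` only: any `d + 1` coordinates satisfy a relation of
degree at most `δ` on the closed set cut out by `I`. -/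
def CoordDegree {n : ℕ} {Ω : Type*} [Field Ω] (I : Ideal (MvPolynomial (Fin n) Ω)) (d δ : ℕ) :
    Prop :=
  ∀ S : Finset (Fin n), S.card = d + 1 → ∃ Q : MvPolynomial {t // t ∈ S} Ω,
    Q ≠ 0 ∧ Q.totalDegree ≤ δ ∧ rename Subtype.val Q ∈ I

/-- As `CoordDegree`, with relations whose nonzero coefficients are elements of the subfield `K` that
are units for all the valuations `v j`. -/
def UnitCoordDegree {n N : ℕ} {K Ω : Type*} [Field K] [Field Ω] [Algebra K Ω]
    (v : Fin N → Valuation K ℤᵐ⁰) (I : Ideal (MvPolynomial (Fin n) Ω)) (d δ : ℕ) : Prop :=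
  ∀ S : Finset (Fin n), S.card = d + 1 → ∃ Q : MvPolynomial {t // t ∈ S} K,
    Q ≠ 0 ∧ Q.totalDegree ≤ δ ∧ (∀ m ∈ Q.support, ∀ j, v j (Q.coeff m) = 1) ∧
      rename Subtype.val (map (algebraMap K Ω) Q) ∈ I

/-- Every ideal of dimension at most `d` satisfies `CoordDegree` for some degree. -/
theorem exists_coordDegree {n d : ℕ} {Ω : Type*} [Field Ω] (I : Ideal (MvPolynomial (Fin n) Ω))
    (hI : ringKrullDim (MvPolynomial (Fin n) Ω ⧸ I) ≤ d) : ∃ δ, CoordDegree I d δ := by
  classical
  have hQ := fun S : {S : Finset (Fin n) // S.card = d + 1} =>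
    exists_mem_of_krullDim_le I hI S.1 S.2
  choose Q hQ0 hQI using hQ
  refine ⟨∑ S, (Q S).totalDegree, fun S hS => ⟨Q ⟨S, hS⟩, hQ0 _, ?_, hQI _⟩⟩
  exact Finset.single_le_sum (f := fun S => (Q S).totalDegree) (fun _ _ => Nat.zero_le _)
    (Finset.mem_univ (⟨S, hS⟩ : {S : Finset (Fin n) // S.card = d + 1}))

theorem totalDegree_map_le' {σ R S : Type*} [CommSemiring R] [CommSemiring S] (f : R →+* S)
    (p : MvPolynomial σ R) : (map f p).totalDegree ≤ p.totalDegree :=
  Finset.sup_mono (support_map_subset f p)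

/-- The uniform polynomials for translates. -/
theorem exists_uniform {n d N : ℕ} (hd : d < n) (hN : N = (d + 1) * (n - d - 1) + 1) (D : ℕ) :
    ∃ (Δ : Type) (_ : Fintype Δ) (G : Δ → MvPolynomial (Fin N × Fin n) ℚ)
      (k : Δ → ℕ), (∀ δ, G δ ≠ 0) ∧ (∀ δ, (G δ).IsHomogeneous (k δ)) ∧
      ∀ (K : Type u) (Ω : Type w) [Field K] [Field Ω] [Algebra K Ω]
        (I : Ideal (MvPolynomial (Fin n) Ω))
        (Q : (S : {S : Finset (Fin n) // S.card = d + 1}) → MvPolynomial {t // t ∈ S.1} Ω),
        (∀ S, Q S ≠ 0) → (∀ S, (Q S).totalDegree ≤ D) → (∀ S, rename Subtype.val (Q S) ∈ I) →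
        ∀ v : Fin N → Valuation K ℤᵐ⁰, ∃ b : Δ → (Fin N × Fin n → ℚ),
          ((∀ S, ∀ m ∈ (Q S).support, ∀ j, ∃ c : K, algebraMap K Ω c = (Q S).coeff m ∧ v j c = 1) →
            b = 0) ∧
          ∀ g : Fin n → K,
          (∀ δ, eval (fun jt => ((log (v jt.1 (g jt.2)) : ℤ) : ℚ) + b δ jt) (G δ) ≠ 0) →
            TranslateTypical.{u, w, z} v I g d := by
  classical
  let T : Type := (S : {S : Finset (Fin n) // S.card = d + 1}) →
    {mm : ({t // t ∈ S.1} → Fin (D + 1)) × ({t // t ∈ S.1} → Fin (D + 1)) // mm.1 ≠ mm.2}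
  let μ : T → {S : Finset (Fin n) // S.card = d + 1} → (Fin n → ℚ) := fun τ S t =>
    if h : t ∈ S.1 then (((τ S).1.1 ⟨t, h⟩ : ℕ) : ℚ) - (((τ S).1.2 ⟨t, h⟩ : ℕ) : ℚ) else 0
  have hμ : ∀ τ S, μ τ S ≠ 0 := by
    intro τ S h
    apply (τ S).2
    funext ⟨t, ht⟩
    have h1 := congrFun h t
    simp only [μ, ht, dif_pos, Pi.zero_apply] at h1
    have h2 : (((τ S).1.1 ⟨t, ht⟩ : ℕ) : ℚ) = (((τ S).1.2 ⟨t, ht⟩ : ℕ) : ℚ) := by linarith
    exact Fin.ext (by exact_mod_cast h2)
  have hsupp : ∀ τ, ∀ S : {S : Finset (Fin n) // S.card = d + 1}, ∀ t ∉ S.1, μ τ S t = 0 := by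
    intro τ S t ht
    simp [μ, ht]
  have hJ := fun τ => exists_coords_affine_uniform (μ τ) (hμ τ) (hsupp τ)
  choose J M hJd hJM using hJ
  obtain ⟨Δ, hΔ, ty, G, k, hG0, hGk, hG⟩ := exists_poly_translate_uniform hd hN J hJd M
  refine ⟨Δ, hΔ, G, k, hG0, hGk, ?_⟩
  intro K Ω _ _ _ I Q hQ0 hQD hQI v
  have hl := fun j => exists_log (v j)
  choose l hl1 hl2 using hl
  have hz := fun j => exists_extend (Ω := Ω) (v j).valuationSubring (l j) (hl2 j)
    (fun i : Empty => i.elim) (by
      rw [algebraicIndependent_empty_type_iff]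
      exact (algebraMap K Ω).injective)
  choose A z hz1 hz2 _ using hz
  -- exponents as functions
  let ex : (S : {S : Finset (Fin n) // S.card = d + 1}) → ({t // t ∈ S.1} →₀ ℕ) →
      ({t // t ∈ S.1} → Fin (D + 1)) := fun S m t => Fin.ofNat (D + 1) (m t)
  let back : (S : {S : Finset (Fin n) // S.card = d + 1}) → ({t // t ∈ S.1} → Fin (D + 1)) →
      ({t // t ∈ S.1} →₀ ℕ) := fun S f => Finsupp.equivFunOnFinite.symm fun t => (f t : ℕ)
  have hle : ∀ S, ∀ m ∈ (Q S).support, ∀ t, m t ≤ D := by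
    intro S m hm t
    have h1 := le_totalDegree hm
    have h2 : m t ≤ m.sum fun _ e => e := by
      by_cases ht : t ∈ m.support
      · exact Finset.single_le_sum (f := fun t => m t) (fun _ _ => Nat.zero_le _) ht
      · rw [Finsupp.notMem_support_iff.mp ht]
        exact Nat.zero_le _
    exact h2.trans (h1.trans (hQD S))
  have hex : ∀ S, ∀ m ∈ (Q S).support, ∀ t, ((ex S m t : Fin (D + 1)) : ℕ) = m t := by
    intro S m hm t
    show (m t) % (D + 1) = m t
    exact Nat.mod_eq_of_lt (Nat.lt_succ_of_le (hle S m hm t))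
  have hback : ∀ S, ∀ m ∈ (Q S).support, back S (ex S m) = m := by
    intro S m hm
    ext t
    show ((ex S m t : Fin (D + 1)) : ℕ) = m t
    exact hex S m hm t
  let co : Fin N → (S : {S : Finset (Fin n) // S.card = d + 1}) → ({t // t ∈ S.1} → Fin (D + 1)) →
      ℚ := fun j S f =>
    if h : (Q S).coeff (back S f) ≠ 0 then z j (Additive.ofMul (Units.mk0 _ h)) else 0
  choose b hb0 hb using
    fun (j : Fin N) (τ : T) => hJM τ (fun S => co j S (τ S).1.2 - co j S (τ S).1.1)
  refine ⟨fun δ jt => b jt.1 (ty δ jt.1) jt.2, fun hunit => ?_, fun g hg => ?_⟩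
  · have hco0 : ∀ j S f, co j S f = 0 := by
      intro j S f
      simp only [co]
      split_ifs with h
      · obtain ⟨c, hc1, hc2⟩ := hunit S _ (mem_support_iff.mpr h) j
        have hc0 : c ≠ 0 := by
          rintro rfl
          rw [map_zero] at hc1
          exact h hc1.symm
        rw [hz1 j (Units.mk0 c hc0) _ hc1.symm, hl1, Units.val_mk0, hc2, log_one, Int.cast_zero]
      · rfl
    funext δ jt
    show b jt.1 (ty δ jt.1) jt.2 = 0
    rw [hb0 jt.1 (ty δ jt.1) (by funext S; simp [hco0])]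
    rfl
  intro E _ _ _ _ x y hx hy' S h Λ hS hΛ hfin
  have hy : ∀ t, (y t : E) = algebraMap Ω E (algebraMap K Ω (g t)) * x t := by
    intro t
    rw [hy' t, IsScalarTower.algebraMap_apply K Ω E]
  by_contra hcon
  obtain ⟨Λ', hΛ', hzero⟩ := exists_forms (k := d + 1) y S hS Λ hΛ
    (fun i => (hfin i).base) (by omega)
  have hg0 : ∀ t, algebraMap K Ω (g t) ≠ 0 := by
    intro t h
    have := hy t
    rw [h, map_zero, zero_mul] at this
    exact (y t).ne_zero this
  have hg0' : ∀ t, g t ≠ 0 := by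
    intro t h
    exact hg0 t (by rw [h, map_zero])
  obtain ⟨δ, hδ⟩ := hG b (fun jt => ((log (v jt.1 (g jt.2)) : ℤ) : ℚ)) ⟨Λ', hΛ', fun j => by
    obtain ⟨A2, z2, h21, h22, h23⟩ := exists_extend (A j) (z j) (hz2 j) _ hS
    have hK : ∀ (c : Kˣ) (w : Eˣ), (w : E) = algebraMap K E c →
        z2 (Additive.ofMul w) = ((log (v j (c : K)) : ℤ) : ℚ) := by
      intro c w hw
      have hΩ : algebraMap K Ω (c : K) ≠ 0 := by
        intro h
        exact c.ne_zero ((map_eq_zero _).mp h)
      rw [h21 (Units.mk0 _ hΩ) w (by rw [hw, IsScalarTower.algebraMap_apply K Ω E]; rfl),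
        hz1 j c (Units.mk0 _ hΩ) rfl, hl1]
    refine ⟨fun t => z2 (Additive.ofMul (x t)), ?_, ?_⟩
    · -- ties
      have htie : ∀ S : {S : Finset (Fin n) // S.card = d + 1},
          ∃ mm : {mm : ({t // t ∈ S.1} → Fin (D + 1)) × ({t // t ∈ S.1} → Fin (D + 1)) //
              mm.1 ≠ mm.2},
            co j S mm.1.1 +
              ∑ t : {t // t ∈ S.1}, ((mm.1.1 t : ℕ) : ℚ) * z2 (Additive.ofMul (x t)) =
            co j S mm.1.2 +
              ∑ t : {t // t ∈ S.1}, ((mm.1.2 t : ℕ) : ℚ) * z2 (Additive.ofMul (x t)) := by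
        intro S
        have hne : (Finset.univ : Finset {m // m ∈ (Q S).support}).Nonempty := by
          obtain ⟨m, hm⟩ := Finset.nonempty_iff_ne_empty.mpr
            (fun h => hQ0 S (MvPolynomial.support_eq_empty.mp h))
          exact ⟨⟨m, hm⟩, Finset.mem_univ _⟩
        let cu : {m // m ∈ (Q S).support} → Ωˣ := fun m =>
          Units.mk0 ((Q S).coeff m.1) (mem_support_iff.mp m.2)
        let co' : {m // m ∈ (Q S).support} → Eˣ := fun m =>
          Units.map (algebraMap Ω E : Ω →* E) (cu m)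
        have hsum : ∑ m : {m // m ∈ (Q S).support},
            ((co' m * ∏ t : {t // t ∈ S.1}, x t ^ (m.1 t) : Eˣ) : E) = 0 := by
          have h1 := hx _ (hQI S)
          rw [aeval_rename, aeval_def, eval₂_eq', ← Finset.sum_coe_sort (Q S).support] at h1
          rw [← h1]
          refine Finset.sum_congr rfl fun m _ => ?_
          rw [Units.val_mul, Units.coe_prod]
          simp only [Units.val_pow_eq_pow_val, Function.comp]
          rfl
        obtain ⟨a, -, c, -, hac, hv⟩ := exists_tie A2 z2 h22 Finset.univ hne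
          (fun m : {m // m ∈ (Q S).support} => co' m * ∏ t : {t // t ∈ S.1}, x t ^ (m.1 t)) hsum
        have hco : ∀ m : {m // m ∈ (Q S).support}, co j S (ex S m.1) =
            z j (Additive.ofMul (cu m)) := by
          intro m
          have h1 : (Q S).coeff (back S (ex S m.1)) ≠ 0 := by
            rw [hback S m.1 m.2]
            exact mem_support_iff.mp m.2
          simp only [co]
          rw [dif_pos h1]
          congr 2
          ext
          show (Q S).coeff (back S (ex S m.1)) = (Q S).coeff m.1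
          rw [hback S m.1 m.2]
        refine ⟨⟨(ex S a.1, ex S c.1), fun h => hac (Subtype.ext ?_)⟩, ?_⟩
        · rw [← hback S a.1 a.2, ← hback S c.1 c.2]
          exact congrArg _ h
        · have hval : ∀ m : {m // m ∈ (Q S).support}, z2 (Additive.ofMul
              (co' m * ∏ t : {t // t ∈ S.1}, x t ^ (m.1 t))) = co j S (ex S m.1) +
                ∑ t : {t // t ∈ S.1}, ((ex S m.1 t : ℕ) : ℚ) * z2 (Additive.ofMul (x t)) := by
            intro m
            rw [ofMul_mul, map_add, ofMul_prod, map_sum, h21 (cu m) (co' m) rfl, hco m]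
            congr 1
            refine Finset.sum_congr rfl fun t _ => ?_
            rw [ofMul_pow, map_nsmul, nsmul_eq_mul, hex S m.1 m.2 t]
          rw [hval, hval] at hv
          exact hv
      choose τ hτ using htie
      refine ⟨τ, hb j τ _ fun S => ?_⟩
      have h1 := hτ S
      have h2 : ∑ t, μ τ S t * z2 (Additive.ofMul (x t)) = ∑ t : {t // t ∈ S.1},
          ((((τ S).1.1 t : ℕ) : ℚ) - (((τ S).1.2 t : ℕ) : ℚ)) * z2 (Additive.ofMul (x t)) := by
        have h3 : ∑ t, μ τ S t * z2 (Additive.ofMul (x t)) =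
            ∑ t ∈ S.1, μ τ S t * z2 (Additive.ofMul (x t)) := by
          refine (Finset.sum_subset (Finset.subset_univ S.1) fun t _ ht => ?_).symm
          rw [hsupp τ S t ht, zero_mul]
        rw [h3, ← Finset.sum_coe_sort S.1]
        refine Finset.sum_congr rfl fun t _ => ?_
        have : μ τ S t.1 = (((τ S).1.1 t : ℕ) : ℚ) - (((τ S).1.2 t : ℕ) : ℚ) := by
          simp [μ]
        rw [this]
      rw [h2]
      simp only [sub_mul, Finset.sum_sub_distrib]
      linarith
    · intro k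
      have h1 : ∀ t, z2 (Additive.ofMul (y t)) =
          ((log (v j (g t)) : ℤ) : ℚ) + z2 (Additive.ofMul (x t)) := by
        intro t
        have hE : algebraMap Ω E (algebraMap K Ω (g t)) ≠ 0 := by
          intro h
          exact hg0 t ((map_eq_zero _).mp h)
        have h2 : y t = Units.mk0 _ hE * x t := by
          ext
          simpa using hy t
        rw [h2, ofMul_mul, map_add, h21 (Units.mk0 _ (hg0 t)) (Units.mk0 _ hE) rfl,
          hz1 j (Units.mk0 _ (hg0' t)) (Units.mk0 _ (hg0 t)) rfl, hl1]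
        rfl
      have h3 := hzero z2 (fun t ht => h23 ⟨t, ht⟩ (y t) rfl) (fun i => (hfin i).zero j z2 hK) k
      rw [← h3]
      refine Finset.sum_congr rfl fun t _ => ?_
      rw [h1 t]⟩
  exact hg δ hδ

end Pool.Agent.Lib.MP_a325a5_ag
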