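import Mathlib

/-! The tie property of the value group of a valuation ring. -/

namespace Pool.Agent.Lib.MP_a325a5_ag

open Multiplicative WithZero

/-- tie property of the value group of a valuation subring -/
theorem tie_of_sum_eq_zero {Ω : Type*} [Field Ω] (A : ValuationSubring Ω) {ι : Type*}
    (s : Finset ι) (hs : s.Nonempty) (u : ι → Ωˣ) (h0 : ∑ i ∈ s, (u i : Ω) = 0) :
    ∃ a ∈ s, ∃ b ∈ s, a ≠ b ∧ A.valuation (u a) = A.valuation (u b) := by
  classical
  obtain ⟨a, ha, hmax⟩ := s.exists_max_image (fun i => A.valuation (u i : Ω)) hs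
  by_contra hcon
  push Not at hcon
  have hlt : ∀ i ∈ s.erase a, A.valuation (u i : Ω) < A.valuation (u a : Ω) := by
    intro i hi
    have hi' := Finset.mem_erase.mp hi
    refine lt_of_le_of_ne (hmax i hi'.2) ?_
    exact fun h => hcon a ha i hi'.2 (Ne.symm hi'.1) h.symm
  have hne : A.valuation (u a : Ω) ≠ 0 := by
    simp
  have h1 : A.valuation (∑ i ∈ s.erase a, (u i : Ω)) < A.valuation (u a : Ω) :=
    Valuation.map_sum_lt _ hne hlt
  have h2 : (∑ i ∈ s.erase a, (u i : Ω)) = -(u a : Ω) := by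
    have := Finset.add_sum_erase s (fun i => (u i : Ω)) ha
    rw [h0] at this
    exact eq_neg_of_add_eq_zero_right this
  rw [h2, Valuation.map_neg] at h1
  exact lt_irrefl _ h1

end Pool.Agent.Lib.MP_a325a5_ag
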